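import Pool.Agent.H47.KN.Dom
import Pool.Agent.H41.RA.Rad

/-!
# [H24 KN Fac] K3 fibrations (MP_e49dc9_ag): the order of a section along a curve and the orders of its prime factors

`fac_ord`: `ρ` a section of `W`, `Ls` its prime factors.  If the order of the `i`-th factor along the curve `y` is at most `m i`, then the order of
`ρ` is at most `∑ m i`.
-/

set_option autoImplicit false

namespace Pool.Agent.H24.KN

open Pool.Agent.H54.RV Pool.Agent.H83.TU Pool.Agent.H83.TK Pool.Agent.H20.TD Pool.Agent.H20.TP Pool.Agent.H20.RT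
open Pool.Agent.H24.VP (RR chS chi)
open Pool.Agent.H89.RS

variable {k K : Type} [Field k] [Field K] [Algebra k K] {X : Mod k K} {r : ℕ}
  {ν : Cart X →* Multiplicative (Fin r → ℤ)} {T : Cart X → Cart X → Cart X → ℝ} {l : Cart X → ℝ} {c : ℝ} {TR : Tri3 r}

theorem vn_antiF {y : X.P} {d : Fin 2 → Derivation k K K} {m n : ℕ} (h : m ≤ n) {f : K}
    (hf : Vn X y d n f) : Vn X y d m f := ⟨hf.1, fun a b hab => hf.2 a b (by omega)⟩

/-- a unit has order `0` -/
theorem vn_unit {y : X.P} {d : Fin 2 → Derivation k K K} {f : K} (hf : Un (X.O y) f) : ¬ Vn X y d 1 f := by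
  intro h
  exact (rs_ne y hf.2.1).2 hf (h.2 0 0 (by omega))

theorem vn_list [CharZero k] {y : X.P} {d : Fin 2 → Derivation k K K} {t : Fin 2 → K} (hJ : Jet X y d t) :
    ∀ (Ls : List (PDiv X × Cart X)) (m : Fin Ls.length → ℕ), (∀ x ∈ Ls, Effective x.2) →
      (∀ i, ¬ Vn X y d (m i + 1) ((Ls.get i).2.eq y)) →
      ¬ Vn X y d (∑ i, m i + 1) ((Ls.map Prod.snd).prod.eq y) := by
  intro Ls
  induction Ls with
  | nil =>
    intro m _ _
    rw [List.map_nil, List.prod_nil, one_eq]
    have : (∑ i, m i) = 0 := Fin.sum_univ_zero m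
    rw [this, zero_add]
    exact vn_unit (un_one _)
  | cons x Ls ih =>
    intro m h1 h2
    have h3 := ih (fun i => m i.succ) (fun x hx => h1 x (List.mem_cons_of_mem _ hx)) (fun i => h2 i.succ)
    have h4 := h2 0
    rw [List.map_cons, List.prod_cons, mul_eq]
    have h5 : (∑ i, m i) = m 0 + ∑ i : Fin Ls.length, m i.succ := Fin.sum_univ_succ m
    rw [h5]
    have hprod : (Ls.map Prod.snd).prod.eq y ∈ X.O y := by
      have h6 : ∀ L : List (PDiv X × Cart X), (∀ x ∈ L, Effective x.2) → (L.map Prod.snd).prod.eq y ∈ X.O y := by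
        intro L
        induction L with
        | nil =>
          intro _
          rw [List.map_nil, List.prod_nil, one_eq]
          exact (X.O y).one_mem
        | cons a L ih =>
          intro h
          rw [List.map_cons, List.prod_cons, mul_eq]
          exact (X.O y).mul_mem (h a List.mem_cons_self y) (ih fun x hx => h x (List.mem_cons_of_mem _ hx))
      exact h6 Ls fun x hx => h1 x (List.mem_cons_of_mem _ hx)
    exact Pool.Agent.H47.KN.vn_dom hJ (h1 x List.mem_cons_self y) hprod h4 h3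

theorem fac_ord [CharZero k] [IsAlgClosed k] [T0Space X.P] (h : Hyp X) (hr : RR T l c) (hν : NumR ν)
    (hT : ∀ U V W, TR (cR ν U) (cR ν V) (cR ν W) = T U V W) {W : Cart X} {ρ : K} (hρ0 : ρ ≠ 0) (hρ : Sec W 1 ρ) :
    ∃ Ls : List (PDiv X × Cart X), (∀ y ∈ Ls, SPr X y.1.η y.2) ∧
      (∀ u w, TR u w (cR ν W) = (Ls.map fun y => TR u w (cR ν y.2)).sum) ∧
      ∀ (y : X.P) (d : Fin 2 → Derivation k K K) (t : Fin 2 → K), Jet X y d t → ∀ m : Fin Ls.length → ℕ,
        (∀ i, ¬ Vn X y d (m i + 1) ((Ls.get i).2.eq y)) → ∀ n : ℕ, Vn X y d n (ρ * W.eq y) → n ≤ ∑ i, m i := by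
  have hE : Effective (prin X ρ hρ0 * W) := fun x => by
    have h1 := hρ x
    rw [pow_one] at h1
    rw [mul_eq]
    exact h1
  obtain ⟨Ls, U, h1, h2, h3, h4⟩ := Pool.Agent.H24.VP.fac_eff h hr hE
  have e1 : cR ν W = cR ν (Ls.map Prod.snd).prod + cR ν U := by
    rw [← Pool.Agent.H32.RT.cr_prin hν W ρ hρ0, h4, cR_mul]
  refine ⟨Ls, h1, fun u w => ?_, fun y d t hJ m hm n hn => ?_⟩
  · rw [e1, map_add, list_tr, tr_triv h hr hν hT h2 h3, add_zero]
  · by_contra hcon
    push Not at hcon
    have g1 := vn_list hJ Ls m (fun x hx => (h1 x hx).eff) hm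
    have hUu : Un (X.O y) (U.eq y) := ⟨U.ne _, h2 _, by have := h3 y; rwa [inv_eq] at this⟩
    have g2 : ¬ Vn X y d (0 + 1) (U.eq y) := by
      rw [zero_add]
      exact vn_unit hUu
    have hprod : (Ls.map Prod.snd).prod.eq y ∈ X.O y := by
      have h6 : ∀ L : List (PDiv X × Cart X), (∀ x ∈ L, SPr X x.1.η x.2) → (L.map Prod.snd).prod.eq y ∈ X.O y := by
        intro L
        induction L with
        | nil =>
          intro _
          rw [List.map_nil, List.prod_nil, one_eq]
          exact (X.O y).one_mem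
        | cons a L ih =>
          intro h
          rw [List.map_cons, List.prod_cons, mul_eq]
          exact (X.O y).mul_mem ((h a List.mem_cons_self).eff y) (ih fun x hx => h x (List.mem_cons_of_mem _ hx))
      exact h6 Ls h1
    have g3 := Pool.Agent.H47.KN.vn_dom hJ hprod (h2 y) g1 g2
    have g4 : (Ls.map Prod.snd).prod.eq y * U.eq y = ρ * W.eq y := by
      rw [← mul_eq, ← h4, mul_eq]
      rfl
    rw [g4] at g3
    exact g3 (vn_antiF (by omega) hn)

end Pool.Agent.H24.KN
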