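import Pool.Agent.H24.KN.Spc
import Pool.Agent.H32.KF.Rk2

/-!
# [H24 KN Hor] K3 fibrations (MP_e49dc9_ag): horizontal prime divisors

* `ef_nn`: `T(p,q,W) ≥ 0` for `p, q` nef and `W` effective; `ef_D`: `T(F,D,W) ≥ 0` for `D` in the tangent cone of `F`.
* `pcl_hor`: the pencil of `F` on a prime divisor `S` with `T(F,A,S) > 0`: `s₀` is not zero on `S`, and `s₁ / s₀` is transcendental on `S`.
* `ex_hor`: there is a prime divisor `S` with `T(F,D,S) > 0` (and so `T(F,A,S) > 0`).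
-/

set_option autoImplicit false

namespace Pool.Agent.H24.KN

open Pool.Agent.H54.RV Pool.Agent.H83.TU Pool.Agent.H83.TK Pool.Agent.H20.TD Pool.Agent.H20.TP Pool.Agent.H20.RT
open Pool.Agent.H24.VP (RR chS chi)
open Pool.Agent.H32.KF (Pcl)

variable {k K : Type} [Field k] [Field K] [Algebra k K] {X : Mod k K} {r : ℕ}
  {ν : Cart X →* Multiplicative (Fin r → ℤ)} {T : Cart X → Cart X → Cart X → ℝ} {l : Cart X → ℝ} {c : ℝ} {TR : Tri3 r}
  {A F S W : Cart X} {D p q : Fin r → ℝ} {z : X.P} {s₀ s₁ : K}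

theorem ef_nn [CharZero k] [IsAlgClosed k] [T0Space X.P] (h : Hyp X) (hr : RR T l c) (hν : NumR ν)
    (hT : ∀ U V W, TR (cR ν U) (cR ν V) (cR ν W) = T U V W) (hp : p ∈ closure (CC ν)) (hq : q ∈ closure (CC ν))
    (hW : 0 < h0 W 1) : 0 ≤ TR p q (cR ν W) := by
  obtain ⟨Ls, h1, h2, -⟩ := Pool.Agent.H41.RA.srf_fac h hr hν hT hW
  rw [h2]
  refine List.sum_nonneg fun x hx => ?_
  obtain ⟨y, hy, rfl⟩ := List.mem_map.1 hx
  have htr := trdeg_pdiv h y.1
  exact ms_TT h hr hν hT htr (h1 y hy) (ms_nef h hr hν hT htr (h1 y hy) hp) (ms_nef h hr hν hT htr (h1 y hy) hq)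

theorem ef_D [CharZero k] [IsAlgClosed k] [T0Space X.P] (h : Hyp X) (hr : RR T l c) (hν : NumR ν)
    (hT : ∀ U V W, TR (cR ν U) (cR ν V) (cR ν W) = T U V W) (d : FD ν TR A F D)
    (hW : 0 < h0 W 1) : 0 ≤ TR (cR ν F) D (cR ν W) := by
  obtain ⟨Ls, h1, h2, -⟩ := Pool.Agent.H41.RA.srf_fac h hr hν hT hW
  rw [h2]
  refine List.sum_nonneg fun x hx => ?_
  obtain ⟨y, hy, rfl⟩ := List.mem_map.1 hx
  exact fd_S h hr hν hT d y.1 (h1 y hy)

theorem alg_cst {M : Type} [Field M] [Algebra k M] [IsAlgClosed k] {x : M} (hx : ¬ Transcendental k x) :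
    ∃ c : k, algebraMap k M c = x := by
  have h1 : IsAlgebraic k x := by
    by_contra h2
    exact hx h2
  have h2 := h1.isIntegral
  have h3 := IsAlgClosed.degree_eq_one_of_irreducible k (minpoly.irreducible h2)
  obtain ⟨c, hc⟩ := (minpoly.degree_eq_one_iff.1 h3)
  exact ⟨c, hc⟩

theorem pcl_hor [CharZero k] [IsAlgClosed k] [T0Space X.P] (h : Hyp X) (hr : RR T l c) (hν : NumR ν)
    (hT : ∀ U V W, TR (cR ν U) (cR ν V) (cR ν W) = T U V W) (hA : Ample A) (hF : cR ν F ∈ closure (CC ν))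
    (hsq : TR (cR ν F) (cR ν F) (cR ν A) = 0) (hS : SPr X z S) (hp : Pcl F s₀ s₁)
    (hpos : 0 < TR (cR ν F) (cR ν A) (cR ν S)) :
    Un (X.O z) (s₀ * F.eq z) ∧ Transcendental k (X.rs z (s₁ / s₀)) := by
  have key : ∀ s : K, s ≠ 0 → s ∈ secL F 1 → Un (X.O z) (s * F.eq z) := by
    intro s hs0 hs
    by_contra hcon
    have h1 := (ex_mem h.var hS F 1 s).2 ⟨hs, by rwa [pow_one]⟩
    rw [pow_one] at h1
    have h2 : 0 < h0 (F * S⁻¹) 1 := by
      have := Pool.Agent.H24.TK.fd h.var h.gen hA (F * S⁻¹)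
      have h3 : Nontrivial (secL (F * S⁻¹) 1) :=
        nontrivial_of_ne (⟨s, h1⟩ : secL (F * S⁻¹) 1) 0 (fun h4 => hs0 (congrArg Subtype.val h4))
      exact Module.finrank_pos
    have h3 := ef_nn h hr hν hT hF (subset_closure (cc_amp h.var hν hA)) h2
    rw [cR_mul, Pool.Agent.H41.RA.cR_inv, map_add, map_neg, tr_s23 hr hν hT, hsq] at h3
    linarith
  have hs0 := hp.ne0
  have hu := key s₀ hs0 hp.m0
  refine ⟨hu, ?_⟩
  by_contra hcon
  obtain ⟨b, hb⟩ := alg_cst hcon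
  have htz := Pool.Agent.H32.KF.t_mem hp hu
  have h1 : s₁ - algebraMap k K b * s₀ ≠ 0 := by
    intro h2
    apply hp.tr
    rw [sub_eq_zero] at h2
    rw [h2, mul_div_assoc, div_self hs0, mul_one]
    exact isAlgebraic_algebraMap b
  have h2 : s₁ - algebraMap k K b * s₀ ∈ secL F 1 := by
    refine Submodule.sub_mem _ hp.m1 ?_
    rw [← Algebra.smul_def]
    exact Submodule.smul_mem _ _ hp.m0
  have h3 := key _ h1 h2
  have h4 : (s₁ - algebraMap k K b * s₀) * F.eq z = (s₁ / s₀ - algebraMap k K b) * (s₀ * F.eq z) := by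
    field_simp
  have hbO : algebraMap k K b ∈ X.O z := (X.O z).algebraMap_mem b
  have h5 : X.rs z ((s₁ - algebraMap k K b * s₀) * F.eq z) = 0 := by
    rw [h4, rs_mul z (sub_mem htz hbO) hu.2.1]
    have h6 : X.rs z (s₁ / s₀ - algebraMap k K b) = 0 := by
      have h7 : X.rs z (s₁ / s₀ - algebraMap k K b) + X.rs z (algebraMap k K b) = X.rs z (s₁ / s₀) := by
        rw [← rs_add z (sub_mem htz hbO) hbO, sub_add_cancel]
      have h8 : X.rs z (algebraMap k K b) = algebraMap k (X.kap z) b := rs_alg z b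
      rw [h8, hb] at h7
      exact add_eq_right.1 h7
    rw [h6, zero_mul]
  exact (rs_ne z h3.2.1).2 h3 h5

theorem ex_hor [CharZero k] [IsAlgClosed k] [T0Space X.P] (h : Hyp X) (hr : RR T l c) (hν : NumR ν)
    (hT : ∀ U V W, TR (cR ν U) (cR ν V) (cR ν W) = T U V W) (d : FD ν TR A F D) :
    ∃ (P : PDiv X) (S : Cart X), SPr X P.η S ∧ 0 < TR (cR ν F) D (cR ν S) ∧ 0 < TR (cR ν F) (cR ν A) (cR ν S) := by
  obtain ⟨m, hm, -, hb⟩ := exists_bpf h.var d.amp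
  have hm0 : (0 : ℝ) < m := by exact_mod_cast hm
  have hpos : 0 < h0 (A ^ m) 1 := Pool.Agent.H20.TQ.bpf_pos h hb
  obtain ⟨Ls, h1, h2, -⟩ := Pool.Agent.H41.RA.srf_fac h hr hν hT hpos
  have hda := d.da
  have h3 : 0 < TR (cR ν F) D (cR ν (A ^ m)) := by
    rw [Pool.Agent.H41.RA.cR_pow, map_smul, smul_eq_mul]
    positivity
  rw [h2] at h3
  obtain ⟨y, hy, hy2⟩ : ∃ y ∈ Ls, 0 < TR (cR ν F) D (cR ν y.2) := by
    by_contra hcon
    push Not at hcon
    have h4 : (Ls.map fun y => TR (cR ν F) D (cR ν y.2)).sum ≤ 0 := Pool.Agent.H41.RA.sum_np hcon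
    exact absurd h4 (not_le.2 h3)
  refine ⟨y.1, y.2, h1 y hy, hy2, ?_⟩
  have htr := trdeg_pdiv h y.1
  have hms := ms_nef h hr hν hT htr (h1 y hy) d.nef
  have hmA := ms_nef h hr hν hT htr (h1 y hy) (subset_closure (cc_amp h.var hν d.amp))
  have h4 := ms_TT h hr hν hT htr (h1 y hy) hms hmA
  refine lt_of_le_of_ne h4 fun h5 => ?_
  have h6 := ks_zero hν (ms_zero h hr hν hT htr (h1 y hy) d.amp hms h5.symm) D
  rw [h6] at hy2
  exact lt_irrefl _ hy2

end Pool.Agent.H24.KN
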