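import Pool.Agent.H24.KN.Spc
import Pool.Agent.H20.RT.Bgd

/-!
# [H24 KN Low] K3 fibrations (MP_e49dc9_ag, think 1279 (5e)): the positive values of `T(F,D,.)` on the classes `G` with
`T(F,A,G)` and `- T(F,G,G)` bounded are bounded from below.

PROOF.  The numbers `T(F,G,b i)` (`b` the standard basis) are integral and bounded (`cs_neg`: Cauchy-Schwarz on the complement of `A`), and
`T(F,D,G)` is a function of these numbers.
-/

set_option autoImplicit false

namespace Pool.Agent.H24.KN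

open Pool.Agent.H54.RV Pool.Agent.H83.TU Pool.Agent.H83.TK Pool.Agent.H20.TD Pool.Agent.H20.TP Pool.Agent.H20.RT
open Pool.Agent.H24.VP (RR chS chi)

variable {k K : Type} [Field k] [Field K] [Algebra k K] {X : Mod k K} {r : ℕ}
  {ν : Cart X →* Multiplicative (Fin r → ℤ)} {T : Cart X → Cart X → Cart X → ℝ} {l : Cart X → ℝ} {c : ℝ} {TR : Tri3 r}
  {A F : Cart X} {D : Fin r → ℝ}

/-- Cauchy-Schwarz for numbers -/
theorem cs_num {p m q : ℝ} (h : ∀ s : ℝ, 0 ≤ p + s * m * 2 + s ^ 2 * q) : m ^ 2 ≤ p * q := by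
  have hp : 0 ≤ p := by
    have := h 0
    linarith
  have hq : 0 ≤ q := by
    by_contra hcon
    push Not at hcon
    obtain ⟨s, hs⟩ : ∃ s, s = (p + 2 * |m| + 1) / (-q) + 1 := ⟨_, rfl⟩
    have hq' : 0 < -q := by linarith
    have hs1 : 1 ≤ s := by
      rw [hs]
      have := abs_nonneg m
      have : 0 ≤ (p + 2 * |m| + 1) / (-q) := by positivity
      linarith
    have h2 : p + 2 * |m| + 1 < s * (-q) := by
      rw [hs, add_mul, div_mul_cancel₀ _ hq'.ne']
      linarith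
    have h3 := h s
    have h4 : s * m ≤ s * |m| := mul_le_mul_of_nonneg_left (le_abs_self m) (by linarith)
    have h5 : s * (p + 2 * |m| + 1) < s * (s * (-q)) := mul_lt_mul_of_pos_left h2 (by linarith)
    have h6 : p ≤ s * p := by nlinarith
    nlinarith
  rcases hq.eq_or_lt with h1 | h1
  · rw [← h1, mul_zero]
    by_contra hcon
    push Not at hcon
    have hm : m ≠ 0 := by
      rintro rfl
      norm_num at hcon
    have h3 := h (-(p + 1) / m)
    rw [← h1] at h3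
    have h4 : -(p + 1) / m * m = -(p + 1) := div_mul_cancel₀ _ hm
    rw [h4] at h3
    linarith
  · have h3 := h (-m / q)
    have h4 : p + -m / q * m * 2 + (-m / q) ^ 2 * q = p - m ^ 2 / q := by
      field_simp
      ring
    rw [h4, sub_nonneg, div_le_iff₀ h1] at h3
    exact h3

/-- Cauchy-Schwarz on the complement of `a` -/
theorem cs_neg (B : (Fin r → ℝ) →ₗ[ℝ] (Fin r → ℝ) →ₗ[ℝ] ℝ) (hs : ∀ u v, B u v = B v u) {a : Fin r → ℝ}
    (ha : 0 < B a a) (hi : ∀ v, B a a * B v v ≤ B a v ^ 2) {u v : Fin r → ℝ} (hu : B a u = 0) (hv : B a v = 0) :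
    B u v ^ 2 ≤ B u u * B v v := by
  have h1 : ∀ w, B a w = 0 → B w w ≤ 0 := by
    intro w hw
    have h2 := hi w
    rw [hw] at h2
    by_contra hcon
    push Not at hcon
    have := mul_pos ha hcon
    nlinarith
  have h3 := cs_num (p := -B u u) (m := -B u v) (q := -B v v) fun s => by
    have h4 := h1 (u + s • v) (by rw [map_add, map_smul, hu, hv, smul_zero, add_zero])
    simp only [map_add, map_smul, LinearMap.add_apply, LinearMap.smul_apply, smul_eq_mul] at h4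
    rw [hs v u] at h4
    nlinarith
  nlinarith

theorem low_val [CharZero k] [IsAlgClosed k] [T0Space X.P] (h : Hyp X) (hr : RR T l c) (hν : NumR ν)
    (hT : ∀ U V W, TR (cR ν U) (cR ν V) (cR ν W) = T U V W) (d : FD ν TR A F D) (B M : ℝ) :
    ∃ e : ℝ, 0 < e ∧ ∀ G : Cart X, -B ≤ T F G G → |T F A G| ≤ M → 0 < TR (cR ν F) D (cR ν G) →
      e ≤ TR (cR ν F) D (cR ν G) := by
  classical
  obtain ⟨f, hf⟩ : ∃ f, f = cR ν F := ⟨_, rfl⟩
  obtain ⟨a, ha⟩ : ∃ a, a = cR ν A := ⟨_, rfl⟩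
  have hpos := d.pos
  rw [← hf, ← ha] at hpos
  have s23 := tr_s23 hr hν hT
  have hi : ∀ v, TR f a a * TR f v v ≤ TR f a v ^ 2 := fun v =>
    hi_real h hr hν hT (by rw [hf]; exact d.nef) hpos
  -- the bound for one basis vector
  have key : ∀ b : Fin r → ℝ, ∃ N : ℝ, ∀ G : Cart X, -B ≤ T F G G → |T F A G| ≤ M → |TR f (cR ν G) b| ≤ N := by
    intro b
    obtain ⟨α, hα⟩ : ∃ α, α = TR f a a := ⟨_, rfl⟩
    obtain ⟨β, hβ⟩ : ∃ β, β = TR f a b := ⟨_, rfl⟩
    obtain ⟨y, hy⟩ : ∃ y, y = TR f (α • b - β • a) (α • b - β • a) := ⟨_, rfl⟩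
    rw [← hα] at hpos
    refine ⟨(((α ^ 2 * |B| + α * M ^ 2) * |y| + 1) + α * |M| * |β|) / α ^ 2, fun G h1 h2 => ?_⟩
    obtain ⟨g, hg⟩ : ∃ g, g = cR ν G := ⟨_, rfl⟩
    rw [← hT, ← hf, ← hg] at h1
    rw [← hT, ← hf, ← ha, ← hg] at h2
    rw [← hg]
    have e1 : TR f a (α • g - TR f a g • a) = 0 := by
      simp only [map_sub, map_smul, smul_eq_mul]
      rw [hα]
      ring
    have e2 : TR f a (α • b - β • a) = 0 := by
      simp only [map_sub, map_smul, smul_eq_mul]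
      rw [hα, hβ]
      ring
    have e3 := cs_neg (TR f) (fun u v => s23 f u v) (by rw [← hα]; exact hpos) hi e1 e2
    have e4 : TR f (α • g - TR f a g • a) (α • b - β • a) = α ^ 2 * TR f g b - α * TR f a g * β := by
      simp only [map_sub, map_smul, LinearMap.sub_apply, LinearMap.smul_apply, smul_eq_mul]
      rw [s23 f g a, ← hβ, ← hα]
      ring
    have e5 : TR f (α • g - TR f a g • a) (α • g - TR f a g • a) = α ^ 2 * TR f g g - α * TR f a g ^ 2 := by
      simp only [map_sub, map_smul, LinearMap.sub_apply, LinearMap.smul_apply, smul_eq_mul]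
      rw [s23 f g a, ← hα]
      ring
    rw [e4, e5, ← hy] at e3
    have h2' := h2
    rw [abs_le] at h2
    have h3 : TR f a g ^ 2 ≤ M ^ 2 := sq_le_sq' h2.1 h2.2
    have h4 : -(α ^ 2 * |B| + α * M ^ 2) ≤ α ^ 2 * TR f g g - α * TR f a g ^ 2 := by
      have h5 : -|B| ≤ TR f g g := by linarith [le_abs_self B]
      have h6 : α ^ 2 * (-|B|) ≤ α ^ 2 * TR f g g := mul_le_mul_of_nonneg_left h5 (by positivity)
      have h7 : α * TR f a g ^ 2 ≤ α * M ^ 2 := mul_le_mul_of_nonneg_left h3 hpos.le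
      linarith
    have h5 : α ^ 2 * TR f g g - α * TR f a g ^ 2 ≤ 0 := by
      have h6 := hi g
      rw [← hα] at h6
      nlinarith
    obtain ⟨w, hw⟩ : ∃ w, w = α ^ 2 * TR f g g - α * TR f a g ^ 2 := ⟨_, rfl⟩
    obtain ⟨q, hq⟩ : ∃ q, q = α ^ 2 * TR f g b - α * TR f a g * β := ⟨_, rfl⟩
    rw [← hw] at h4 h5 e3
    rw [← hq] at e3
    have h6 : w * y ≤ (α ^ 2 * |B| + α * M ^ 2) * |y| := by
      have h7 : w * y ≤ |w| * |y| := by
        rw [← abs_mul]
        exact le_abs_self _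
      have h8 : |w| ≤ α ^ 2 * |B| + α * M ^ 2 := by
        rw [abs_of_nonpos h5]
        linarith
      exact h7.trans (mul_le_mul_of_nonneg_right h8 (abs_nonneg y))
    have h7 : |q| ≤ (α ^ 2 * |B| + α * M ^ 2) * |y| + 1 := by
      by_contra hcon
      push Not at hcon
      have h8 : 0 ≤ (α ^ 2 * |B| + α * M ^ 2) * |y| := by positivity
      have h9 : q ^ 2 = |q| ^ 2 := (sq_abs q).symm
      nlinarith
    rw [le_div_iff₀ (by positivity)]
    have h8 : |TR f g b| * α ^ 2 = |α ^ 2 * TR f g b| := by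
      rw [abs_mul, abs_of_pos (show 0 < α ^ 2 by positivity), mul_comm]
    rw [h8]
    have h9 : α ^ 2 * TR f g b = q + α * TR f a g * β := by
      rw [hq]
      ring
    rw [h9]
    refine (abs_add_le _ _).trans (add_le_add h7 ?_)
    rw [abs_mul, abs_mul, abs_of_pos hpos]
    have h10 : |TR f a g| ≤ |M| := h2'.trans (le_abs_self M)
    exact mul_le_mul_of_nonneg_right (mul_le_mul_of_nonneg_left h10 hpos.le) (abs_nonneg β)
  choose N hN using fun i : Fin r => key (Pi.single i 1)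
  obtain ⟨S, hS⟩ : ∃ S : Set ℝ, S = {y | 0 < y ∧ ∃ φ ∈ Set.Icc (fun i : Fin r => -⌈|N i|⌉) (fun i : Fin r => ⌈|N i|⌉),
      y = rv φ ⬝ᵥ D} := ⟨_, rfl⟩
  have hfin : S.Finite := by
    rw [hS]
    refine ((Set.finite_Icc (fun i : Fin r => -⌈|N i|⌉) (fun i : Fin r => ⌈|N i|⌉)).image fun φ => rv φ ⬝ᵥ D).subset ?_
    rintro y ⟨-, φ, h1, rfl⟩
    exact ⟨φ, h1, rfl⟩
  have hmem : ∀ G : Cart X, -B ≤ T F G G → |T F A G| ≤ M → 0 < TR f D (cR ν G) → TR f D (cR ν G) ∈ S := by
    intro G h1 h2 h3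
    obtain ⟨φ, hφ⟩ := int_fun hν (F := TR f (cR ν G)) (fun U => by
      obtain ⟨n, hn⟩ := Pool.Agent.H24.VP.t_int hr h.amp F G U
      exact ⟨n, by rw [hf, hT, hn]⟩)
    rw [hS]
    refine ⟨h3, φ, ?_, ?_⟩
    · have h4 : ∀ i, |(φ i : ℝ)| ≤ (⌈|N i|⌉ : ℝ) := by
        intro i
        have h5 := hN i G h1 h2
        rw [hφ, dotProduct_single, mul_one] at h5
        exact h5.trans ((le_abs_self _).trans (Int.le_ceil _))
      constructor
      · intro i
        have h5 := (abs_le.1 (h4 i)).1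
        have h6 : ((-⌈|N i|⌉ : ℤ) : ℝ) ≤ (φ i : ℝ) := by
          push_cast
          exact h5
        exact_mod_cast h6
      · intro i
        have h5 := (abs_le.1 (h4 i)).2
        exact_mod_cast h5
    · rw [s23, hφ]
  rw [← hf]
  rcases S.eq_empty_or_nonempty with h1 | h1
  · refine ⟨1, one_pos, fun G h2 h3 h4 => ?_⟩
    have h5 := hmem G h2 h3 h4
    rw [h1] at h5
    exact absurd h5 (Set.notMem_empty _)
  · obtain ⟨e, he, hmin⟩ := Set.exists_min_image S id hfin h1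
    refine ⟨e, ?_, fun G h2 h3 h4 => hmin _ (hmem G h2 h3 h4)⟩
    rw [hS] at he
    exact he.1

end Pool.Agent.H24.KN
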