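import Pool.Agent.H24.KN.Wx
import Pool.Agent.H24.KN.Low
import Pool.Agent.H47.KN.Mlt

/-!
# [H24 KN Mli] K3 fibrations (MP_e49dc9_ag, think 1279 (5b) - (5e)): the prime factors of a section of `W + v F`

`W = x D + a` as in `wx`, `Ls` the list of the prime factors of a section of `W + v F` (`srf_fac`).
* `mlt_in`: the estimates for `T(F,A,.)`, `T(F,D,.)`, `T(F,W,.)`, `T(F,.,.)` on the prime factors.
* `mlt_all`: `∑ μ i ≤ η x` for large `x`, the sum over a set of horizontal factors `G i` with `T(F,D,G i) > 0`, if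
  `μ i (μ i - 1) ≤ C (T(F,G i,G i)⁺ + T(F,A,G i))` and `T(F,G,G) ≥ - C T(F,A,G)` for all horizontal prime divisors.
-/

set_option autoImplicit false

namespace Pool.Agent.H24.KN

open Pool.Agent.H54.RV Pool.Agent.H83.TU Pool.Agent.H83.TK Pool.Agent.H20.TD Pool.Agent.H20.TP Pool.Agent.H20.RT
open Pool.Agent.H24.VP (RR chS chi)

variable {k K : Type} [Field k] [Field K] [Algebra k K] {X : Mod k K} {r : ℕ}
  {ν : Cart X →* Multiplicative (Fin r → ℤ)} {T : Cart X → Cart X → Cart X → ℝ} {l : Cart X → ℝ} {c : ℝ} {TR : Tri3 r}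
  {A F : Cart X} {D : Fin r → ℝ}

theorem list_fin {α : Type} (Ls : List α) (g : α → ℝ) (hg : ∀ y ∈ Ls, 0 ≤ g y) (s : Finset (Fin Ls.length)) :
    ∑ i ∈ s, g (Ls.get i) ≤ (Ls.map g).sum := by
  have h1 : (Ls.map g).sum = ∑ i : Fin Ls.length, g (Ls.get i) := by
    rw [← List.sum_ofFn]
    congr 1
    conv_lhs => rw [← List.ofFn_get Ls, List.map_ofFn]
    rfl
  rw [h1]
  exact Finset.sum_le_sum_of_subset_of_nonneg (Finset.subset_univ s) fun i _ _ => hg _ (Ls.get_mem i)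

theorem mlt_in [CharZero k] [IsAlgClosed k] [T0Space X.P] (h : Hyp X) (hr : RR T l c) (hν : NumR ν)
    (hT : ∀ U V W, TR (cR ν U) (cR ν V) (cR ν W) = T U V W) (d : FD ν TR A F D) (N₀ : ℝ) :
    ∃ C : ℝ, 0 < C ∧ ∀ (x : ℝ) (W : Cart X) (v : ℤ) (Ls : List (PDiv X × Cart X)), 1 ≤ x →
      cR ν W - x • D ∈ closure (CC ν) → ‖cR ν W - x • D‖ ≤ N₀ → (∀ y ∈ Ls, SPr X y.1.η y.2) →
      (∀ u w, TR u w (cR ν (W * F ^ v)) = (Ls.map fun y => TR u w (cR ν y.2)).sum) →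
      (∀ y ∈ Ls, 0 ≤ T F A y.2) ∧ (∀ y ∈ Ls, 0 ≤ TR (cR ν F) D (cR ν y.2)) ∧ (∀ y ∈ Ls, 0 ≤ T F W y.2) ∧
      T F W W ≤ C * x ∧ ∀ s : Finset (Fin Ls.length), ∑ i ∈ s, T F A (Ls.get i).2 ≤ C * x ∧
        ∑ i ∈ s, TR (cR ν F) D (cR ν (Ls.get i).2) ≤ C ∧ ∑ i ∈ s, T F W (Ls.get i).2 ≤ T F W W := by
  obtain ⟨f, hf⟩ : ∃ f, f = cR ν F := ⟨_, rfl⟩
  obtain ⟨b, hb⟩ : ∃ b, b = cR ν A := ⟨_, rfl⟩
  have s12 := tr_s12 hr hν hT
  have s23 := tr_s23 hr hν hT
  have hff : TR f f = 0 := by rw [hf]; exact d.sq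
  have e0 : ∀ v, TR f f v = 0 := fun v => by rw [hff]; rfl
  have hdd : TR f D D = 0 := by rw [hf]; exact d.dd
  have hbC : b ∈ closure (CC ν) := by rw [hb]; exact subset_closure (cc_amp h.var hν d.amp)
  have hfC : f ∈ closure (CC ν) := by rw [hf]; exact d.nef
  obtain ⟨B₃, hB₃0, hB₃⟩ := bd_cpt (g := fun a => TR f a b) (cont3' TR continuous_const continuous_id continuous_const) N₀
  obtain ⟨B₄, hB₄0, hB₄⟩ := bd_cpt (g := fun a => TR f D a) (cont3' TR continuous_const continuous_const continuous_id) N₀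
  obtain ⟨B₅, hB₅0, hB₅⟩ := bd_cpt (g := fun a => TR f a a) (cont3' TR continuous_const continuous_id continuous_id) N₀
  refine ⟨|TR f D b| + B₃ + 2 * B₄ + B₅ + 1, by positivity, fun x W v Ls hx haC haN h1 h2 => ?_⟩
  obtain ⟨w, hw⟩ : ∃ w, w = cR ν W := ⟨_, rfl⟩
  obtain ⟨a, ha⟩ : ∃ a, a = w - x • D := ⟨_, rfl⟩
  have hwa : w = x • D + a := by rw [ha]; abel
  rw [← hw, ← ha] at haC haN
  have hx0 : 0 < x := by linarith
  have b3 : |TR f a b| ≤ B₃ := hB₃ a haN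
  have b4 : |TR f D a| ≤ B₄ := hB₄ a haN
  have b5 : |TR f a a| ≤ B₅ := hB₅ a haN
  have hN : cR ν (W * F ^ v) = w + (v : ℝ) • f := by rw [cR_mul, cR_zpow, ← hw, ← hf]
  have nD : ∀ y ∈ Ls, 0 ≤ TR f D (cR ν y.2) := fun y hy => by
    rw [hf]
    exact fd_S h hr hν hT d y.1 (h1 y hy)
  have nA : ∀ y ∈ Ls, ∀ q ∈ closure (CC ν), 0 ≤ TR f q (cR ν y.2) := fun y hy q hq => by
    have htr := trdeg_pdiv h y.1
    exact ms_TT h hr hν hT htr (h1 y hy) (ms_nef h hr hν hT htr (h1 y hy) hfC) (ms_nef h hr hν hT htr (h1 y hy) hq)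
  have nW : ∀ y ∈ Ls, 0 ≤ TR f w (cR ν y.2) := fun y hy => by
    rw [hwa, map_add, map_smul, LinearMap.add_apply, LinearMap.smul_apply, smul_eq_mul]
    have := nD y hy
    have := nA y hy a haC
    positivity
  refine ⟨fun y hy => by rw [← hT, ← hf]; exact nA y hy _ (by rw [← hb]; exact hbC), fun y hy => by
    rw [← hf]; exact nD y hy, fun y hy => by rw [← hT, ← hf, ← hw]; exact nW y hy, ?_, fun s => ⟨?_, ?_, ?_⟩⟩
  · rw [← hT, ← hf, ← hw, hwa, sq_x s12 s23, hdd]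
    have h3 : 2 * x * TR f D a ≤ 2 * x * B₄ := mul_le_mul_of_nonneg_left (abs_le.1 b4).2 (by positivity)
    have h4 : TR f a a ≤ B₅ := (abs_le.1 b5).2
    have h5 : B₅ ≤ B₅ * x := by nlinarith
    have h6 : 0 ≤ (|TR f D b| + B₃ + 1) * x := by positivity
    nlinarith
  · have h3 := list_fin Ls (fun y => T F A y.2) (fun y hy => by
      rw [← hT, ← hf]; exact nA y hy _ (by rw [← hb]; exact hbC)) s
    refine h3.trans ?_
    have h4 : (Ls.map fun y => T F A y.2).sum = TR f b (cR ν (W * F ^ v)) := by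
      rw [h2, hf, hb]
      simp only [hT]
    rw [h4, hN, map_add, map_smul, smul_eq_mul, s23 f b f, e0, hwa, map_add, map_smul, smul_eq_mul, s23 f b D, s23 f b a]
    have h5 : x * TR f D b ≤ x * |TR f D b| := mul_le_mul_of_nonneg_left (le_abs_self _) hx0.le
    have h6 : TR f a b ≤ B₃ := (abs_le.1 b3).2
    have h7 : B₃ ≤ B₃ * x := by nlinarith
    have h8 : 0 ≤ (2 * B₄ + B₅ + 1) * x := by positivity
    nlinarith
  · have h3 := list_fin Ls (fun y => TR f D (cR ν y.2)) nD s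
    rw [← hf]
    refine h3.trans ?_
    rw [← h2, hN, map_add, map_smul, smul_eq_mul, s23 f D f, e0, hwa, map_add, map_smul, smul_eq_mul, hdd]
    have h6 : TR f D a ≤ B₄ := (abs_le.1 b4).2
    have := abs_nonneg (TR f D b)
    linarith
  · have h3 := list_fin Ls (fun y => T F W y.2) (fun y hy => by rw [← hT, ← hf, ← hw]; exact nW y hy) s
    refine h3.trans (le_of_eq ?_)
    have h4 : (Ls.map fun y => T F W y.2).sum = TR f w (cR ν (W * F ^ v)) := by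
      rw [h2, hf, hw]
      simp only [hT]
    rw [h4, hN, map_add, map_smul, smul_eq_mul, s23 f w f, e0, ← hT, ← hf, ← hw]
    ring

theorem mlt_all [CharZero k] [IsAlgClosed k] [T0Space X.P] (h : Hyp X) (hr : RR T l c) (hν : NumR ν)
    (hT : ∀ U V W, TR (cR ν U) (cR ν V) (cR ν W) = T U V W) (d : FD ν TR A F D) {C₅ : ℝ} (hC₅ : 0 < C₅)
    (h5 : ∀ (P : PDiv X) (G : Cart X), SPr X P.η G → 0 < T F A G → -(C₅ * T F A G) ≤ T F G G) (N₀ : ℝ)
    {η : ℝ} (hη : 0 < η) :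
    ∃ x₀ : ℝ, 1 ≤ x₀ ∧ ∀ (x : ℝ) (W : Cart X) (v : ℤ) (Ls : List (PDiv X × Cart X)) (μ : Fin Ls.length → ℝ)
      (s : Finset (Fin Ls.length)), x₀ ≤ x → cR ν W - x • D ∈ CC ν → ‖cR ν W - x • D‖ ≤ N₀ →
      (∀ y ∈ Ls, SPr X y.1.η y.2) →
      (∀ u w, TR u w (cR ν (W * F ^ v)) = (Ls.map fun y => TR u w (cR ν y.2)).sum) →
      (∀ i ∈ s, 0 < T F A (Ls.get i).2) → (∀ i ∈ s, 0 < TR (cR ν F) D (cR ν (Ls.get i).2)) →
      (∀ i ∈ s, μ i * (μ i - 1) ≤ C₅ * (max (T F (Ls.get i).2 (Ls.get i).2) 0 + T F A (Ls.get i).2)) →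
      ∑ i ∈ s, μ i ≤ η * x := by
  obtain ⟨C₁, hC₁, hin⟩ := mlt_in h hr hν hT d N₀
  obtain ⟨M, hM, hsm⟩ := Pool.Agent.H47.KN.mlt_small (C := C₁ + C₅) (η := η) (by positivity) hη
  obtain ⟨e, he, hlow⟩ := low_val h hr hν hT d (C₅ * M) M
  obtain ⟨x₀, hx₀, hfin⟩ := hsm e he
  refine ⟨x₀, hx₀, fun x W v Ls μ s hx haC haN h1 h2 h3 h4 h6 => ?_⟩
  have hx1 : 1 ≤ x := hx₀.trans hx
  have hx0 : 0 < x := by linarith
  obtain ⟨i1, i2, i3, i4, i5⟩ := hin x W v Ls hx1 (subset_closure haC) haN h1 h2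
  obtain ⟨j1, j2, j3⟩ := i5 s
  have hCx : C₁ * x ≤ (C₁ + C₅) * x := mul_le_mul_of_nonneg_right (by linarith) hx0.le
  -- `β > 0`
  have hβ : 0 < T F W W := by
    obtain ⟨a, ha⟩ : ∃ a, a = cR ν W - x • D := ⟨_, rfl⟩
    have hwa : cR ν W = x • D + a := by rw [ha]; abel
    rw [← ha] at haC
    rw [← hT, hwa, sq_x (tr_s12 hr hν hT) (tr_s23 hr hν hT), d.dd, mul_zero, zero_add]
    have g1 : 0 < TR (cR ν F) D a := by
      obtain ⟨ε, hε, hb⟩ := (oc_cc h.var hν).sub_small haC (cR ν A)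
      have g2 := fd_nef h hr hν hT d (subset_closure (hb (-ε) (by rw [abs_neg, abs_of_pos hε])))
      rw [map_add, map_smul, smul_eq_mul] at g2
      have := mul_pos hε d.da
      linarith
    have g2 := tr_nn h hr hν hT d.nef (subset_closure haC) (subset_closure haC)
    positivity
  have key := hfin x (T F W W) (Fin Ls.length) s (fun _ => 1) (fun i => T F A (Ls.get i).2)
    (fun i => T F (Ls.get i).2 (Ls.get i).2) (fun i => TR (cR ν F) D (cR ν (Ls.get i).2)) (fun i => T F W (Ls.get i).2) μ hx hβ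
    (i4.trans hCx) (fun _ _ => zero_le_one) (fun i hi => ?_) (fun i hi => (h4 i hi).le)
    (fun i hi => i3 _ (Ls.get_mem i)) (fun i hi => ?_) (fun i hi => ?_) (by simpa using j1.trans hCx)
    (by simpa using j2.trans (by linarith)) (by simpa using j3) (fun i hi hiM => ?_)
  · simpa using key
  · -- integral
    obtain ⟨n, hn⟩ := Pool.Agent.H24.VP.t_int hr ⟨A, d.amp⟩ F A (Ls.get i).2
    have g1 := h3 i hi
    show 1 ≤ T F A (Ls.get i).2
    rw [hn] at g1 ⊢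
    have g2 : 0 < n := by exact_mod_cast g1
    exact_mod_cast g2
  · -- the index theorem
    have g1 := hi_real h hr hν hT d.nef (L := cR ν W) (v := cR ν (Ls.get i).2) (by rw [hT]; exact hβ)
    rw [hT, hT, hT] at g1
    show T F (Ls.get i).2 (Ls.get i).2 * T F W W ≤ T F W (Ls.get i).2 ^ 2
    linarith
  · refine (h6 i hi).trans (mul_le_mul_of_nonneg_right (by linarith) ?_)
    have := h3 i hi
    positivity
  · have g1 := h3 i hi
    refine hlow (Ls.get i).2 ?_ (by rw [abs_of_pos g1]; exact hiM) (h4 i hi)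
    have g2 := h5 (Ls.get i).1 (Ls.get i).2 (h1 _ (Ls.get_mem i)) g1
    have g3 : C₅ * T F A (Ls.get i).2 ≤ C₅ * M := mul_le_mul_of_nonneg_left hiM hC₅.le
    linarith

end Pool.Agent.H24.KN
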