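import Pool.Agent.H24.KN.Hor
import Pool.Agent.H43.WR.Def

/-!
# [H24 KN N3] K3 fibrations (MP_e49dc9_ag): two small lemmas for (N3)

`pcl_pu`: the pencil `1, u` of `F` (`Pu X F u`) is not constant if `0 < T F A A`.  `ex_ord`: the order along a curve exists if it is bounded.
The theorem (N3) is `Pool.Agent.H47.KN.n3`.
-/

set_option autoImplicit false

namespace Pool.Agent.H24.KN

open Pool.Agent.H54.RV Pool.Agent.H83.TU Pool.Agent.H83.TK Pool.Agent.H20.TD Pool.Agent.H20.TP Pool.Agent.H20.RT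
open Pool.Agent.H24.VP (RR chS chi)
open Pool.Agent.H89.RS Pool.Agent.H43.WR
open Pool.Agent.H32.KF (Pcl)

variable {k K : Type} [Field k] [Field K] [Algebra k K] {X : Mod k K} {r : ℕ}
  {ν : Cart X →* Multiplicative (Fin r → ℤ)} {T : Cart X → Cart X → Cart X → ℝ} {l : Cart X → ℝ} {c : ℝ} {TR : Tri3 r}
  {A F κ : Cart X} {D : Fin r → ℝ} {J : K → K → K → K} {u : K}

/-- the pencil is not constant -/
theorem pcl_pu [CharZero k] [IsAlgClosed k] [T0Space X.P] (h : Hyp X) (hr : RR T l c) (hP : Pu X F u)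
    (hFA : 0 < T F A A) : Pcl F 1 u := by
  refine ⟨fun x => ?_, fun x => ?_, fun x => ?_, ?_⟩
  · rw [one_mul, pow_one]
    exact hP.one x
  · rw [pow_one]
    exact hP.sec x
  · rw [one_mul]
    exact hP.bpf x
  · rw [div_one]
    by_contra hcon
    obtain ⟨b, hb⟩ := alg_cst hcon
    have h1 : ∀ x, Un (X.O x) (F.eq x) := by
      intro x
      rcases hP.bpf x with h2 | h2
      · exact h2
      · rw [← hb] at h2
        have hb0 : algebraMap k K b ≠ 0 := fun h3 => h2.1 (by rw [h3, zero_mul])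
        refine ⟨F.ne x, hP.one x, ?_⟩
        have h3 : (F.eq x)⁻¹ = algebraMap k K b * (algebraMap k K b * F.eq x)⁻¹ := by
          have := F.ne x
          field_simp
        rw [h3]
        exact (X.O x).mul_mem ((X.O x).algebraMap_mem b) h2.2.2
    have h2 := Pool.Agent.H24.VP.triv_T h hr (fun x => (h1 x).2.1) (fun x => by rw [inv_eq]; exact (h1 x).2.2) A A
    rw [h2] at hFA
    exact lt_irrefl _ hFA

/-- the order along a curve -/
theorem ex_ord {y : X.P} {d : Fin 2 → Derivation k K K} {S : Cart X} (hS : Effective S) {B : ℝ}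
    (hB : ∀ μ : ℕ, Vn X y d μ (S.eq y) → (μ : ℝ) ≤ B) :
    ∃ m : ℕ, Vn X y d m (S.eq y) ∧ ¬ Vn X y d (m + 1) (S.eq y) := by
  classical
  have h1 : ∃ m : ℕ, ¬ Vn X y d (m + 1) (S.eq y) := by
    obtain ⟨m, hm⟩ := exists_nat_gt B
    refine ⟨m, fun h2 => ?_⟩
    have h3 := hB _ h2
    push_cast at h3
    linarith
  refine ⟨Nat.find h1, ?_, Nat.find_spec h1⟩
  rcases Nat.eq_zero_or_pos (Nat.find h1) with h2 | h2
  · rw [h2]
    exact ⟨hS y, fun a b hab => absurd hab (Nat.not_lt_zero _)⟩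
  · have h3 := Nat.find_min h1 (m := Nat.find h1 - 1) (by omega)
    rw [not_not] at h3
    have h4 : Nat.find h1 - 1 + 1 = Nat.find h1 := by omega
    rwa [h4] at h3

end Pool.Agent.H24.KN
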