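import Mathlib

/-!
# [H24 KN Obt] K3 fibrations (MP_e49dc9_ag): obtuse vectors (Mathlib only)

A negative semidefinite form on a space of dimension `d`: there are at most `2 d` vectors with negative squares and nonnegative products.
-/

set_option autoImplicit false

namespace Pool.Agent.H24.KN

/-- Cauchy-Schwarz: a vector of square `0` is orthogonal to everything -/
theorem semi_zero {V : Type*} [AddCommGroup V] [Module ℝ V] (B : V →ₗ[ℝ] V →ₗ[ℝ] ℝ) (hs : ∀ u v, B u v = B v u)
    (hn : ∀ v, B v v ≤ 0) {u : V} (hu : B u u = 0) (v : V) : B u v = 0 := by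
  by_contra hne
  have key : ∀ t : ℝ, 2 * t * B u v + B v v ≤ 0 := by
    intro t
    have h1 := hn (t • u + v)
    simp only [map_add, map_smul, LinearMap.add_apply, LinearMap.smul_apply, smul_eq_mul, hu, hs v u] at h1
    linarith
  have h1 := key ((1 - B v v) / (2 * B u v))
  have h2 : 2 * ((1 - B v v) / (2 * B u v)) * B u v = 1 - B v v := by field_simp
  linarith

theorem obt_sub {V : Type*} [AddCommGroup V] [Module ℝ V] [FiniteDimensional ℝ V] (B : V →ₗ[ℝ] V →ₗ[ℝ] ℝ)
    (hs : ∀ u v, B u v = B v u) (d : ℕ) : ∀ (W : Submodule ℝ V), Module.finrank ℝ W ≤ d → (∀ v ∈ W, B v v ≤ 0) →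
    ∀ (n : ℕ) (s : Fin n → V), (∀ i, s i ∈ W) → (∀ i, B (s i) (s i) < 0) → (∀ i j, i ≠ j → 0 ≤ B (s i) (s j)) →
      n ≤ 2 * d := by
  induction d with
  | zero =>
    intro W hW hn n s h0 h1 _
    have h2 : W = ⊥ := Submodule.finrank_eq_zero.1 (Nat.le_zero.1 hW)
    rcases n with - | n
    · exact Nat.zero_le _
    · exfalso
      have h3 := h0 0
      rw [h2, Submodule.mem_bot] at h3
      have h4 := h1 0
      rw [h3, map_zero] at h4
      exact lt_irrefl _ h4
  | succ d ih =>
    intro W hW hn n s h0 h1 h2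
    rcases n with - | n
    · exact Nat.zero_le _
    obtain ⟨u, hu⟩ : ∃ u, u = s 0 := ⟨_, rfl⟩
    obtain ⟨b, hb⟩ : ∃ b, b = B u u := ⟨_, rfl⟩
    have hb0 : b < 0 := by rw [hb, hu]; exact h1 0
    have hb0' : b ≠ 0 := hb0.ne
    -- the orthogonal complement
    obtain ⟨W', hW'⟩ : ∃ W' : Submodule ℝ V, W' = W ⊓ LinearMap.ker (B u) := ⟨_, rfl⟩
    have hlt : W' < W := by
      rw [hW']
      refine lt_of_le_of_ne inf_le_left fun h3 => ?_
      have h4 : u ∈ W ⊓ LinearMap.ker (B u) := by
        rw [h3, hu]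
        exact h0 0
      have h5 := LinearMap.mem_ker.1 (Submodule.mem_inf.1 h4).2
      exact hb0' (by rw [hb, h5])
    have hrk : Module.finrank ℝ W' ≤ d := by
      have := Submodule.finrank_lt_finrank_of_lt hlt
      omega
    -- projections
    obtain ⟨π, hπ⟩ : ∃ π : V → V, π = fun v => v - (B u v / b) • u := ⟨_, rfl⟩
    have hπW : ∀ v ∈ W, π v ∈ W' := by
      intro v hv
      rw [hW', Submodule.mem_inf, LinearMap.mem_ker, hπ]
      refine ⟨Submodule.sub_mem _ hv (Submodule.smul_mem _ _ (by rw [hu]; exact h0 0)), ?_⟩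
      simp only [map_sub, map_smul, smul_eq_mul]
      rw [← hb, div_mul_cancel₀ _ hb0', sub_self]
    have hπB : ∀ v w, B (π v) (π w) = B v w - B u v * B u w / b := by
      intro v w
      rw [hπ]
      simp only [map_sub, map_smul, LinearMap.sub_apply, LinearMap.smul_apply, smul_eq_mul]
      rw [← hb, hs v u]
      field_simp
      ring
    have hnn : ∀ v w, 0 ≤ B u v → 0 ≤ B u w → B v w ≤ B (π v) (π w) := by
      intro v w hv hw
      rw [hπB]
      have : B u v * B u w / b ≤ 0 := div_nonpos_of_nonneg_of_nonpos (mul_nonneg hv hw) hb0.le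
      linarith
    obtain ⟨s', hs'⟩ : ∃ s' : Fin n → V, s' = fun i => s i.succ := ⟨_, rfl⟩
    have hu' : ∀ i, 0 ≤ B u (s' i) := fun i => by
      rw [hu, hs']
      exact h2 0 i.succ (Fin.succ_ne_zero i).symm
    have hs'W : ∀ i, s' i ∈ W := fun i => by rw [hs']; exact h0 _
    have hs'2 : ∀ i j, i ≠ j → 0 ≤ B (s' i) (s' j) := fun i j hij => by
      rw [hs']
      exact h2 _ _ fun h => hij (Fin.succ_injective _ h)
    have hs'1 : ∀ i, B (s' i) (s' i) < 0 := fun i => by rw [hs']; exact h1 _
    have hle : ∀ i, B (π (s' i)) (π (s' i)) ≤ 0 := fun i =>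
      hn _ ((by rw [hW']; exact inf_le_left : W' ≤ W) (hπW _ (hs'W i)))
    have hno : ∀ v ∈ W', B v v ≤ 0 := fun v hv => hn _ (hlt.le hv)
    -- at most one projection is isotropic
    have hone : ∀ i j, i ≠ j → B (π (s' i)) (π (s' i)) = 0 → B (π (s' j)) (π (s' j)) = 0 → False := by
      intro i j hij hi hj
      have e1 : B (π (s' i)) (π (s' j)) = 0 := by
        have hB' := semi_zero (V := W') ((B.domRestrict₂ W').domRestrict W') (fun u v => hs _ _)
          (fun v => hno _ v.2) (u := ⟨π (s' i), hπW _ (hs'W i)⟩) hi ⟨π (s' j), hπW _ (hs'W j)⟩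
        exact hB'
      rw [hπB] at hi hj e1
      have a1 := hs'1 i
      have a2 := hs'1 j
      have a3 := hs'2 i j hij
      have a4 := hu' i
      have a5 := hu' j
      have a6 : 0 < B u (s' i) := by
        refine lt_of_le_of_ne a4 fun h3 => ?_
        rw [← h3] at hi
        simp only [zero_mul, zero_div, sub_zero] at hi
        linarith
      have a7 : 0 < B u (s' j) := by
        refine lt_of_le_of_ne a5 fun h3 => ?_
        rw [← h3] at hj
        simp only [zero_mul, zero_div, sub_zero] at hj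
        linarith
      have a8 : B u (s' i) * B u (s' j) / b < 0 := div_neg_of_pos_of_neg (mul_pos a6 a7) hb0
      linarith
    by_cases hex : ∃ i, B (π (s' i)) (π (s' i)) = 0
    · obtain ⟨i₀, hi₀⟩ := hex
      rcases n with - | n
      · omega
      · have h3 := ih W' hrk hno n (fun i => π (s' (i₀.succAbove i))) (fun i => hπW _ (hs'W _))
          (fun i => lt_of_le_of_ne (hle _) fun h4 => hone _ _ (Fin.succAbove_ne i₀ i) h4 hi₀)
          (fun i j hij => (hs'2 _ _ fun h => hij (Fin.succAbove_right_injective h)).trans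
            (hnn _ _ (hu' _) (hu' _)))
        omega
    · push Not at hex
      have h3 := ih W' hrk hno n (fun i => π (s' i)) (fun i => hπW _ (hs'W _))
        (fun i => lt_of_le_of_ne (hle _) (hex i))
        (fun i j hij => (hs'2 _ _ hij).trans (hnn _ _ (hu' _) (hu' _)))
      omega

end Pool.Agent.H24.KN
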