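import Pool.Agent.H32.KF.Rkb
import Pool.Agent.H24.RC.Hl

/-!
# [H24 KN Rkc] K3 fibrations (MP_e49dc9_ag): the number of sections lost when multiples of `F` are subtracted

`rkc`: `S` ANY horizontal prime divisor (its degree need not be large); there are constants `d, C` with
`h⁰(U + n F) ≤ h⁰(U) + n ∑_{i < j} d (T(U - i S,F,S) + C)` if `h⁰(U + m F - j S) = 0` for all `m`, and `U - i S + n F + A` is ample for some `n`
(`i < j`).

PROOF.  `dif_mono`: `h⁰(W + 2 F) - h⁰(W + F) ≥ h⁰(W + F) - h⁰(W)`, since `s₀ L(W + F) ∩ s₁ L(W + F) ⊆ s₀ s₁ L(W)`.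
`grow_z`: `h⁰_S(V + m F) ≤ h⁰_S(V) + m d (T(V,F,S) + C)` (`rk1` for the surface `S`, and `rks`).
So `h⁰(U + m F) ≤ ∑_{i < j} h⁰_S(U + m F - i S) ≤ C' + m ρ` for all `m`; the differences do not decrease, so they are `≤ ρ`.
-/

set_option autoImplicit false

namespace Pool.Agent.H24.KN

open Pool.Agent.H54.RV Pool.Agent.H83.TU Pool.Agent.H83.TK Pool.Agent.H20.TD Pool.Agent.H20.TP
open Pool.Agent.H24.VP (RR chS chi)
open Pool.Agent.H32.KF (Pcl rk1 rks)
open Pool.Agent.H36.ZO (rk sec_mul1)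

variable {k K : Type} [Field k] [Field K] [Algebra k K] {X : Mod k K}
  {T : Cart X → Cart X → Cart X → ℝ} {l : Cart X → ℝ} {c : ℝ} {A F S : Cart X} {z : X.P} {s₀ s₁ : K}

/-- the differences do not decrease -/
theorem dif_mono (h : Pcl F s₀ s₁) (W : Cart X) [FiniteDimensional k (secL W 1)] [FiniteDimensional k (secL (W * F) 1)]
    [FiniteDimensional k (secL (W * F * F) 1)] : 2 * h0 (W * F) 1 ≤ h0 (W * F * F) 1 + h0 W 1 := by
  have hs0 := h.ne0
  have hs1 := h.ne1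
  let m₀ : K →ₗ[k] K := LinearMap.mulLeft k s₀
  let m₁ : K →ₗ[k] K := LinearMap.mulLeft k s₁
  let m₂ : K →ₗ[k] K := LinearMap.mulLeft k (s₀ * s₁)
  have hm₀ : Function.Injective m₀ := fun a b hab => mul_left_cancel₀ hs0 hab
  have hm₁ : Function.Injective m₁ := fun a b hab => mul_left_cancel₀ hs1 hab
  have hm₂ : Function.Injective m₂ := fun a b hab => mul_left_cancel₀ (mul_ne_zero hs0 hs1) hab
  obtain ⟨P, hP⟩ : ∃ P, P = (secL (W * F) 1).map m₀ := ⟨_, rfl⟩
  obtain ⟨Q, hQ⟩ : ∃ Q, Q = (secL (W * F) 1).map m₁ := ⟨_, rfl⟩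
  have h1 : Module.finrank k P = h0 (W * F) 1 := by
    rw [hP]
    exact ((secL (W * F) 1).equivMapOfInjective m₀ hm₀).finrank_eq.symm
  have h2 : Module.finrank k Q = h0 (W * F) 1 := by
    rw [hQ]
    exact ((secL (W * F) 1).equivMapOfInjective m₁ hm₁).finrank_eq.symm
  have h3 : Module.finrank k ((secL W 1).map m₂) = h0 W 1 :=
    ((secL W 1).equivMapOfInjective m₂ hm₂).finrank_eq.symm
  have hPf : FiniteDimensional k P := by rw [hP]; infer_instance
  have hQf : FiniteDimensional k Q := by rw [hQ]; infer_instance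
  have h4 : P ⊔ Q ≤ secL (W * F * F) 1 := by
    rw [hP, hQ, sup_le_iff]
    constructor
    · rintro _ ⟨a, ha, rfl⟩
      show s₀ * a ∈ secL (W * F * F) 1
      rw [mul_comm s₀ a]
      exact sec_mul1 ha h.m0
    · rintro _ ⟨a, ha, rfl⟩
      show s₁ * a ∈ secL (W * F * F) 1
      rw [mul_comm s₁ a]
      exact sec_mul1 ha h.m1
  have h5 : P ⊓ Q ≤ (secL W 1).map m₂ := by
    rintro f ⟨hf1, hf2⟩
    rw [hP] at hf1
    rw [hQ] at hf2
    obtain ⟨a, ha, ha2⟩ := hf1
    obtain ⟨b, hb, hb2⟩ := hf2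
    have e1 : s₀ * a = f := ha2
    have e2 : s₁ * b = f := hb2
    refine ⟨f / (s₀ * s₁), ?_, ?_⟩
    · intro x
      rw [pow_one]
      have hF := F.ne x
      have hWF : (W * F).eq x = W.eq x * F.eq x := mul_eq _ _ _
      rcases h.un x with h6 | h6
      · have h7 := hb x
        rw [pow_one, hWF] at h7
        have h8 : f / (s₀ * s₁) * W.eq x = b * (W.eq x * F.eq x) * (s₀ * F.eq x)⁻¹ := by
          rw [← e2]
          field_simp
        rw [h8]
        exact (X.O x).mul_mem h7 h6.2.2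
      · have h7 := ha x
        rw [pow_one, hWF] at h7
        have h8 : f / (s₀ * s₁) * W.eq x = a * (W.eq x * F.eq x) * (s₁ * F.eq x)⁻¹ := by
          rw [← e1]
          field_simp
        rw [h8]
        exact (X.O x).mul_mem h7 h6.2.2
    · show s₀ * s₁ * (f / (s₀ * s₁)) = f
      rw [mul_div_cancel₀ _ (mul_ne_zero hs0 hs1)]
  have h6 := Submodule.finrank_sup_add_finrank_inf_eq P Q
  have h7 := Submodule.finrank_mono h4
  have h8 := Submodule.finrank_mono h5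
  rw [h3] at h8
  rw [h1, h2] at h6
  have h9 : Module.finrank k (secL (W * F * F) 1) = h0 (W * F * F) 1 := rfl
  omega

/-- the pencil on a horizontal prime divisor -/
theorem pcl_res (hX : IsVar X) (h : Pcl F s₀ s₁) (hu : Un (X.O z) (s₀ * F.eq z))
    (ht : Transcendental k (X.rs z (s₁ / s₀))) :
    Pcl (X := subM hX z) (resD hX z F) (X.rs z (s₀ * F.eq z)) (X.rs z (s₁ * F.eq z)) ∧
      X.rs z (s₁ * F.eq z) / X.rs z (s₀ * F.eq z) = X.rs z (s₁ / s₀) := by
  have hF := F.ne z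
  have hs0 := h.ne0
  have e : X.rs z (s₁ * F.eq z) / X.rs z (s₀ * F.eq z) = X.rs z (s₁ / s₀) := by
    have h1 : s₁ * F.eq z ∈ X.O z := by
      have := h.m1 z
      rwa [pow_one] at this
    rw [← rs_div z h1 hu]
    congr 1
    field_simp
  refine ⟨⟨?_, ?_, fun x => ?_, ?_⟩, e⟩
  · have h1 := (resS hX z F 1 ⟨s₀, h.m0⟩).2
    rwa [resS_coe, pow_one] at h1
  · have h1 := (resS hX z F 1 ⟨s₁, h.m1⟩).2
    rwa [resS_coe, pow_one] at h1
  · have h1 : s₀ * F.eq x.1 ∈ X.O x.1 := by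
      have := h.m0 x.1
      rwa [pow_one] at this
    have h2 : s₁ * F.eq x.1 ∈ X.O x.1 := by
      have := h.m1 x.1
      rwa [pow_one] at this
    have e1 := rs_sec hX z F 1 s₀ x (by rwa [pow_one])
    have e2 := rs_sec hX z F 1 s₁ x (by rwa [pow_one])
    rw [pow_one, pow_one, pow_one] at e1 e2
    rw [e1, e2]
    rcases h.un x.1 with h3 | h3
    · exact Or.inl ((un_subO hX x.2 h1).2 h3)
    · exact Or.inr ((un_subO hX x.2 h2).2 h3)
  · rw [e]
    exact ht

/-- linear growth on `S` -/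
theorem grow_z [CharZero k] [IsAlgClosed k] [T0Space X.P] (h : Hyp X) (hr : RR T l c)
    (hA : Ample A) (hF : ∀ B : Cart X, Ample B → Ample (B * F)) (hS : SPr X z S) (htr : Algebra.trdeg k (X.kap z) = 2)
    (hp : Pcl F s₀ s₁) (hFF : T F F S = 0) (hu : Un (X.O z) (s₀ * F.eq z))
    (ht : Transcendental k (X.rs z (s₁ / s₀))) :
    ∃ (d : ℕ) (C : ℝ), 0 ≤ C ∧ ∀ V : Cart X, (∃ n : ℕ, Ample (V * F ^ n * A)) →
      ∀ m : ℕ, (hz h.var z (V * F ^ m) : ℝ) ≤ hz h.var z V + m * (d * (T V F S + C)) := by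
  obtain ⟨d, C, hC0, hC⟩ := rks h hr hA hS htr hp hFF hu ht
  have hfs : ∀ W : Cart (subM h.var z), FiniteDimensional k (secL W 1) := fd_sub h.var hA z
  obtain ⟨hpz, e⟩ := pcl_res h.var hp hu ht
  have hpow : ∀ (m : ℕ) (B : Cart X), Ample B → Ample (B * F ^ m) := by
    intro m B hB
    induction m with
    | zero => rwa [pow_zero, mul_one]
    | succ m ih =>
      rw [pow_succ, ← mul_assoc]
      exact hF _ ih
  refine ⟨d, C, hC0, fun V hV m => ?_⟩
  induction m with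
  | zero => simp
  | succ m ih =>
    have := hfs (resD h.var z (V * F ^ m))
    have := hfs (resD h.var z (V * F ^ m) * resD h.var z F)
    have h1 := rk1 hpz (resD h.var z (V * F ^ m))
    rw [e, ← map_mul] at h1
    have h2 := hC (V * F ^ m * F) (by
      obtain ⟨n, hn⟩ := hV
      refine ⟨n, ?_⟩
      have h4 := hpow (m + 1) _ hn
      have h5 : V * F ^ n * A * F ^ (m + 1) = V * F ^ m * F * F ^ n * A := by
        rw [pow_succ]
        ac_rfl
      rwa [h5] at h4)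
    have h3 : T (V * F ^ m * F) F S = T V F S := by
      rw [hr.tri.add, hr.tri.add, hr.tri.pow, hFF]
      ring
    rw [h3] at h2
    have e2 : V * F ^ (m + 1) = V * F ^ m * F := by rw [pow_succ, mul_assoc]
    rw [e2]
    have h4 : (hz h.var z (V * F ^ m * F) : ℝ) ≤ hz h.var z (V * F ^ m) +
        (rk (IntermediateField.adjoin k {X.rs z (s₁ / s₀)}) (resD h.var z (V * F ^ m * F)) : ℝ) := by
      exact_mod_cast h1
    push_cast
    nlinarith

/-- numbers: nondecreasing differences and linear growth -/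
theorem conv_le {a : ℕ → ℝ} {C ρ : ℝ} (h1 : ∀ m, 2 * a (m + 1) ≤ a (m + 2) + a m) (h2 : ∀ m : ℕ, a m ≤ C + m * ρ) (n : ℕ) :
    a n ≤ a 0 + n * ρ := by
  have hmono : ∀ m i : ℕ, a (m + 1) - a m ≤ a (m + i + 1) - a (m + i) := by
    intro m i
    induction i with
    | zero => exact le_refl _
    | succ i ih =>
      have h3 := h1 (m + i)
      have e1 : m + i + 2 = m + (i + 1) + 1 := by ring
      have e2 : m + i + 1 = m + (i + 1) := by ring
      rw [e1, e2] at h3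
      rw [e2] at ih
      linarith
  have hgrow : ∀ m i : ℕ, a m + i * (a (m + 1) - a m) ≤ a (m + i) := by
    intro m i
    induction i with
    | zero => simp
    | succ i ih =>
      have h3 := hmono m i
      have e1 : m + i + 1 = m + (i + 1) := by ring
      rw [e1] at h3
      push_cast
      linarith
  have hstep : ∀ m, a (m + 1) - a m ≤ ρ := by
    intro m
    by_contra hcon
    push Not at hcon
    obtain ⟨i, hi⟩ := exists_nat_gt ((C + m * ρ - a m) / (a (m + 1) - a m - ρ))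
    rw [div_lt_iff₀ (by linarith)] at hi
    have h3 := hgrow m i
    have h4 := h2 (m + i)
    push_cast at h4
    nlinarith
  induction n with
  | zero => simp
  | succ n ih =>
    have := hstep n
    push_cast
    linarith

theorem rkc [CharZero k] [IsAlgClosed k] [T0Space X.P] (h : Hyp X) (hr : RR T l c)
    (hA : Ample A) (hF : ∀ B : Cart X, Ample B → Ample (B * F)) (hS : SPr X z S) (htr : Algebra.trdeg k (X.kap z) = 2)
    (hp : Pcl F s₀ s₁) (hFF : T F F S = 0) (hu : Un (X.O z) (s₀ * F.eq z))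
    (ht : Transcendental k (X.rs z (s₁ / s₀))) :
    ∃ (d : ℕ) (C : ℝ), 0 ≤ C ∧ ∀ (U : Cart X) (j : ℕ), (∀ i < j, ∃ n : ℕ, Ample (U * (S ^ i)⁻¹ * F ^ n * A)) →
      (∀ m : ℕ, h0 (U * F ^ m * (S ^ j)⁻¹) 1 = 0) →
      ∀ n : ℕ, (h0 (U * F ^ n) 1 : ℝ) ≤ h0 U 1 + n * ∑ i ∈ Finset.range j, d * (T (U * (S ^ i)⁻¹) F S + C) := by
  obtain ⟨d, C, hC0, hC⟩ := grow_z h hr hA hF hS htr hp hFF hu ht
  have hfd : ∀ W : Cart X, FiniteDimensional k (secL W 1) := Pool.Agent.H24.TK.fd h.var h.gen hA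
  refine ⟨d, C, hC0, fun U j hU hz n => ?_⟩
  have hdec : ∀ (W : Cart X) (j : ℕ), (h0 W 1 : ℝ) ≤ h0 (W * (S ^ j)⁻¹) 1 +
      ∑ i ∈ Finset.range j, (Pool.Agent.H20.TP.hz h.var z (W * (S ^ i)⁻¹) : ℝ) := by
    intro W j
    induction j with
    | zero => simp
    | succ j ih =>
      have h1 := Pool.Agent.H24.RC.h0_le_z h hS (W * (S ^ j)⁻¹)
      have h2 : W * (S ^ j)⁻¹ * S⁻¹ = W * (S ^ (j + 1))⁻¹ := by
        rw [mul_assoc, ← mul_inv, ← pow_succ]
      rw [h2] at h1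
      have h3 : (h0 (W * (S ^ j)⁻¹) 1 : ℝ) ≤ h0 (W * (S ^ (j + 1))⁻¹) 1 +
        (Pool.Agent.H20.TP.hz h.var z (W * (S ^ j)⁻¹) : ℝ) := by exact_mod_cast h1
      rw [Finset.sum_range_succ]
      linarith
  have key := conv_le (a := fun m => (h0 (U * F ^ m) 1 : ℝ))
    (C := ∑ i ∈ Finset.range j, (Pool.Agent.H20.TP.hz h.var z (U * (S ^ i)⁻¹) : ℝ))
    (ρ := ∑ i ∈ Finset.range j, d * (T (U * (S ^ i)⁻¹) F S + C)) (fun m => ?_) (fun m => ?_) n
  · simp only [pow_zero, mul_one] at key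
    exact key
  · have := hfd (U * F ^ m)
    have := hfd (U * F ^ m * F)
    have := hfd (U * F ^ m * F * F)
    have h1 := dif_mono hp (U * F ^ m)
    have e1 : U * F ^ (m + 1) = U * F ^ m * F := by rw [pow_succ, mul_assoc]
    have e2 : U * F ^ (m + 2) = U * F ^ m * F * F := by rw [pow_succ, pow_succ]; ac_rfl
    show 2 * (h0 (U * F ^ (m + 1)) 1 : ℝ) ≤ (h0 (U * F ^ (m + 2)) 1 : ℝ) + (h0 (U * F ^ m) 1 : ℝ)
    rw [e1, e2]
    exact_mod_cast h1
  · have h1 := hdec (U * F ^ m) j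
    rw [hz m, Nat.cast_zero, zero_add] at h1
    refine h1.trans ?_
    rw [Finset.mul_sum, ← Finset.sum_add_distrib]
    refine Finset.sum_le_sum fun i hi => ?_
    have h2 := hC (U * (S ^ i)⁻¹) (hU i (Finset.mem_range.1 hi)) m
    have e1 : U * F ^ m * (S ^ i)⁻¹ = U * (S ^ i)⁻¹ * F ^ m := by ac_rfl
    rw [e1]
    exact h2

end Pool.Agent.H24.KN
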