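import Pool.Agent.H24.KN.Obt
import Pool.Agent.H24.RC.LbS
import Pool.Agent.H89.RS.Fam0
import Pool.Agent.H41.RA.Rad

/-!
# [H24 KN Spc] K3 fibrations (MP_e49dc9_ag, think 1279 (2)): the special prime divisors

`F` integral and nef, `F . F = 0`, `D` in the tangent cone of `F`, `T(F,D,D) = 0`, `T(F,D,A) > 0` (`FD`).  A prime divisor `S` is special if
`T(F,A,S) > 0`, `T(F,D,S) = 0`.

* `fd_np`, `fd_eq`: the index theorem for the form `T(F,.,.)` and `D`.
* `spc_fin`: if `T(F,S,S) ≠ 0` for all special `S`, then there is `t₀` with `D + t F ≥ 0` on all curves on special prime divisors, `t ≥ t₀`.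
* `spc_iso`: if `S₀` is special with `T(F,S₀,S₀) = 0`, then `T(F,D,.) = c' T(F,S₀,.)`, `c' > 0`, and `T(D,D,D) = c' T(D,D,S₀)`.
-/

set_option autoImplicit false

namespace Pool.Agent.H24.KN

open Pool.Agent.H54.RV Pool.Agent.H83.TU Pool.Agent.H83.TK Pool.Agent.H20.TD Pool.Agent.H20.TP Pool.Agent.H20.RT
open Pool.Agent.H24.VP (RR chS chi)
open Pool.Agent.H24.RC (eps_nn tan_test tan_q srf_t)

variable {k K : Type} [Field k] [Field K] [Algebra k K] {X : Mod k K} {r : ℕ}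
  {ν : Cart X →* Multiplicative (Fin r → ℤ)} {T : Cart X → Cart X → Cart X → ℝ} {l : Cart X → ℝ} {c : ℝ} {TR : Tri3 r}
  {A F : Cart X} {D : Fin r → ℝ}

/-- `F` integral and nef, `F . F = 0`, `D` in the tangent cone of `F`, `T(F,D,D) = 0`, `T(F,D,A) > 0` -/
structure FD (ν : Cart X →* Multiplicative (Fin r → ℤ)) (TR : Tri3 r) (A F : Cart X) (D : Fin r → ℝ) : Prop where
  amp : Ample A
  nef : cR ν F ∈ closure (CC ν)
  sq : TR (cR ν F) (cR ν F) = 0
  pos : 0 < TR (cR ν F) (cR ν A) (cR ν A)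
  tan : ∀ e : ℝ, 0 < e → ∃ t : ℝ, D + e • cR ν A + t • cR ν F ∈ closure (CC ν)
  dd : TR (cR ν F) D D = 0
  da : 0 < TR (cR ν F) D (cR ν A)

/-- the form `T(F,.,.)` is negative semidefinite on the complement of `D` -/
theorem fd_np [CharZero k] [IsAlgClosed k] [T0Space X.P] (h : Hyp X) (hr : RR T l c) (hν : NumR ν)
    (hT : ∀ U V W, TR (cR ν U) (cR ν V) (cR ν W) = T U V W) (d : FD ν TR A F D) {u : Fin r → ℝ}
    (h1 : TR (cR ν F) D u = 0) : TR (cR ν F) u u ≤ 0 := by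
  obtain ⟨f, hf⟩ : ∃ f, f = cR ν F := ⟨_, rfl⟩
  obtain ⟨a, ha⟩ : ∃ a, a = cR ν A := ⟨_, rfl⟩
  have hda := d.da
  have hpos := d.pos
  have hdd := d.dd
  rw [← hf, ← ha] at hda hpos
  rw [← hf] at hdd h1 ⊢
  by_contra hcon
  push Not at hcon
  have s23 := tr_s23 hr hν hT
  have key : ∀ s : ℝ, 0 < s → 2 * TR f D a * TR f u u ≤ s * TR f a u ^ 2 := by
    intro s hs
    have e1 : TR f (D + s • a) (D + s • a) = 2 * s * TR f D a + s ^ 2 * TR f a a := by
      simp only [map_add, map_smul, LinearMap.add_apply, LinearMap.smul_apply, smul_eq_mul, hdd]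
      rw [s23 f a D]
      ring
    have e2 : TR f (D + s • a) u = s * TR f a u := by
      simp only [map_add, map_smul, LinearMap.add_apply, LinearMap.smul_apply, smul_eq_mul, h1]
      ring
    have h2 := hi_real h hr hν hT (p := f) (L := D + s • a) (v := u) (by rw [hf]; exact d.nef) (by
      rw [e1]
      positivity)
    rw [e1, e2] at h2
    have h3 : 0 ≤ s ^ 2 * TR f a a * TR f u u := by positivity
    have h4 : s * (2 * TR f D a * TR f u u) ≤ s * (s * TR f a u ^ 2) := by nlinarith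
    exact le_of_mul_le_mul_left h4 hs
  have h2 := eps_nn (a := -(2 * TR f D a * TR f u u)) (b := TR f a u ^ 2) fun e he => by
    have := key e he
    linarith
  have h3 : 0 < 2 * TR f D a * TR f u u := by positivity
  linarith

theorem fd_eq [CharZero k] [IsAlgClosed k] [T0Space X.P] (h : Hyp X) (hr : RR T l c) (hν : NumR ν)
    (hT : ∀ U V W, TR (cR ν U) (cR ν V) (cR ν W) = T U V W) (d : FD ν TR A F D) {u : Fin r → ℝ}
    (h1 : TR (cR ν F) D u = 0) (h2 : TR (cR ν F) u u = 0) (v : Fin r → ℝ) :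
    TR (cR ν F) D (cR ν A) * TR (cR ν F) u v = TR (cR ν F) u (cR ν A) * TR (cR ν F) D v := by
  obtain ⟨f, hf⟩ : ∃ f, f = cR ν F := ⟨_, rfl⟩
  obtain ⟨a, ha⟩ : ∃ a, a = cR ν A := ⟨_, rfl⟩
  have hda := d.da
  rw [← hf, ← ha] at hda ⊢
  rw [← hf] at h1 h2
  have s23 := tr_s23 hr hν hT
  have hu : u ∈ LinearMap.ker (TR f D) := h1
  have key : ∀ w, TR f D w = 0 → TR f u w = 0 := by
    intro w hw
    have hw' : w ∈ LinearMap.ker (TR f D) := hw
    exact semi_zero (V := LinearMap.ker (TR f D))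
      (((TR f).domRestrict₂ (LinearMap.ker (TR f D))).domRestrict (LinearMap.ker (TR f D)))
      (fun u v => s23 f _ _)
      (fun v => by
        have h4 := fd_np h hr hν hT d (u := v) (by
          rw [← hf]
          exact LinearMap.mem_ker.1 v.2)
        rw [← hf] at h4
        exact h4) (u := ⟨u, hu⟩) h2 ⟨w, hw'⟩
  have h3 := key (v - (TR f D v / TR f D a) • a) (by
    rw [map_sub, map_smul, smul_eq_mul, div_mul_cancel₀ _ hda.ne', sub_self])
  rw [map_sub, map_smul, smul_eq_mul, sub_eq_zero] at h3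
  rw [h3]
  field_simp

/-- different prime divisors and nef classes -/
theorem pr_nn [CharZero k] [IsAlgClosed k] [T0Space X.P] (h : Hyp X) (hr : RR T l c) (hν : NumR ν)
    (hT : ∀ U V W, TR (cR ν U) (cR ν V) (cR ν W) = T U V W) {q : Fin r → ℝ} (hq : q ∈ closure (CC ν))
    {P P' : PDiv X} {S S' : Cart X} (hS : SPr X P.η S) (hS' : SPr X P'.η S') (hne : P.η ≠ P'.η) :
    0 ≤ TR q (cR ν S) (cR ν S') := by
  obtain ⟨B, hB⟩ := h.amp
  have htr := trdeg_pdiv h P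
  have htr1 := trdeg_pdiv h P'
  have hne' : ¬ P.η ⤳ P'.η := by
    intro h1
    exact hne (Pool.Agent.H89.RT.eq_of_sp h.var h1 (htr.trans htr1.symm))
  have hX1 : HasX S {x | ¬ Un (X.O x) (1 * S.eq x)} := by
    refine ⟨1, one_ne_zero, fun x => ?_, rfl⟩
    rw [one_mul, pow_one]
    exact hS.eff x
  have hz0 : P'.η ∉ {x | ¬ Un (X.O x) (1 * S.eq x)} := by
    intro h1
    apply h1
    rw [one_mul]
    exact hS.un _ hne'
  have hpos : 0 < hz h.var P'.η S := hasS_pos h.var hB (hasX_res h.var hX1 hz0)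
  exact (ms_nef h hr hν hT htr1 hS' hq).eff S hpos

theorem fd_S [CharZero k] [IsAlgClosed k] [T0Space X.P] (h : Hyp X) (hr : RR T l c) (hν : NumR ν)
    (hT : ∀ U V W, TR (cR ν U) (cR ν V) (cR ν W) = T U V W) (d : FD ν TR A F D) (P : PDiv X) {S : Cart X}
    (hS : SPr X P.η S) : 0 ≤ TR (cR ν F) D (cR ν S) :=
  tan_q h hr hν hT (trdeg_pdiv h P) hS d.nef d.tan (by rw [d.sq, LinearMap.zero_apply])

/-- **no isotropic special prime divisor** -/
theorem spc_fin [CharZero k] [IsAlgClosed k] [T0Space X.P] (h : Hyp X) (hr : RR T l c) (hν : NumR ν)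
    (hT : ∀ U V W, TR (cR ν U) (cR ν V) (cR ν W) = T U V W) (d : FD ν TR A F D)
    (hno : ∀ (P : PDiv X) (S : Cart X), SPr X P.η S → 0 < TR (cR ν F) (cR ν A) (cR ν S) →
      TR (cR ν F) D (cR ν S) = 0 → TR (cR ν F) (cR ν S) (cR ν S) ≠ 0) :
    ∃ t₀ : ℝ, 0 ≤ t₀ ∧ ∀ t ≥ t₀, ∀ (P : PDiv X) (S : Cart X), SPr X P.η S → 0 < TR (cR ν F) (cR ν A) (cR ν S) →
      TR (cR ν F) D (cR ν S) = 0 → ∀ x, Cv P.η x → 0 ≤ dR hν h.var x (D + t • cR ν F) := by
  classical
  have hneg : ∀ (P : PDiv X) (S : Cart X), SPr X P.η S → 0 < TR (cR ν F) (cR ν A) (cR ν S) →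
      TR (cR ν F) D (cR ν S) = 0 → TR (cR ν F) (cR ν S) (cR ν S) < 0 := fun P S h1 h2 h3 =>
    lt_of_le_of_ne (fd_np h hr hν hT d h3) (hno P S h1 h2 h3)
  obtain ⟨Z, hZ⟩ : ∃ Z : Set X.P, Z = {z | ∃ P : PDiv X, P.η = z ∧ ∃ S : Cart X, SPr X P.η S ∧
      0 < TR (cR ν F) (cR ν A) (cR ν S) ∧ TR (cR ν F) D (cR ν S) = 0} := ⟨_, rfl⟩
  have hfin : Z.Finite := by
    by_contra hcon
    obtain ⟨t, ht, hc⟩ := Set.Infinite.exists_subset_card_eq (show Z.Infinite from hcon) (2 * r + 1)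
    obtain ⟨e⟩ : Nonempty (Fin (2 * r + 1) ≃ t) := ⟨(Fintype.equivFinOfCardEq (by rw [Fintype.card_coe, hc])).symm⟩
    have h1 : ∀ i, ∃ P : PDiv X, P.η = (e i : X.P) ∧ ∃ S : Cart X, SPr X P.η S ∧
      0 < TR (cR ν F) (cR ν A) (cR ν S) ∧ TR (cR ν F) D (cR ν S) = 0 := fun i => by
      have h2 := ht (e i).2
      rw [hZ] at h2
      exact h2
    choose P hP S hS hSA hSD using h1
    have h2 := obt_sub (V := Fin r → ℝ) (TR (cR ν F)) (fun u v => tr_s23 hr hν hT _ _ _) r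
      (LinearMap.ker (TR (cR ν F) D)) (by
        refine (Submodule.finrank_le _).trans ?_
        simp) (fun v hv => fd_np h hr hν hT d (LinearMap.mem_ker.1 hv)) (2 * r + 1) (fun i => cR ν (S i))
      (fun i => hSD i) (fun i => hneg _ _ (hS i) (hSA i) (hSD i)) (fun i j hij => by
        refine pr_nn h hr hν hT d.nef (hS i) (hS j) fun h3 => hij ?_
        rw [hP, hP] at h3
        exact e.injective (Subtype.ext h3))
    omega
  have h1 : ∀ z ∈ Z, ∃ t₀ : ℝ, ∀ t ≥ t₀, ∀ x, Cv z x → 0 ≤ dR hν h.var x (D + t • cR ν F) := by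
    intro z hz
    rw [hZ] at hz
    obtain ⟨P, rfl, S, hS, hSA, hSD⟩ := hz
    exact srf_t h hr hν hT (trdeg_pdiv h P) hS d.amp d.nef d.tan fun _ _ _ => hneg _ _ hS hSA hSD
  choose! τ hτ using h1
  obtain ⟨M, hM⟩ : ∃ M, M = ∑ z ∈ hfin.toFinset, |τ z| := ⟨_, rfl⟩
  refine ⟨M, by rw [hM]; exact Finset.sum_nonneg fun _ _ => abs_nonneg _, fun t ht P S hS hSA hSD x hx => ?_⟩
  have h2 : P.η ∈ Z := by
    rw [hZ]
    exact ⟨P, rfl, S, hS, hSA, hSD⟩
  refine hτ _ h2 t ?_ x hx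
  refine le_trans ?_ ht
  rw [hM]
  exact (le_abs_self _).trans (Finset.single_le_sum (f := fun z => |τ z|) (fun _ _ => abs_nonneg _)
    (hfin.mem_toFinset.2 h2))

/-- `T(D,D,S) ≤ 0` for the special prime divisors -/
theorem spc_dd [CharZero k] [IsAlgClosed k] [T0Space X.P] (h : Hyp X) (hr : RR T l c) (hν : NumR ν)
    (hT : ∀ U V W, TR (cR ν U) (cR ν V) (cR ν W) = T U V W) (d : FD ν TR A F D) (P : PDiv X) {S : Cart X}
    (hS : SPr X P.η S) (h1 : 0 < TR (cR ν F) (cR ν A) (cR ν S)) (h2 : TR (cR ν F) D (cR ν S) = 0) :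
    TR D D (cR ν S) ≤ 0 :=
  (Pool.Agent.H41.RA.hs_le h hr hν hT (trdeg_pdiv h P) hS d.amp (p := cR ν F) (v := D)
    (by rw [d.sq, LinearMap.zero_apply]) h2 fun h3 => absurd h3 h1.ne').1

/-- **an isotropic special prime divisor** -/
theorem spc_iso [CharZero k] [IsAlgClosed k] [T0Space X.P] (h : Hyp X) (hr : RR T l c) (hν : NumR ν)
    (hT : ∀ U V W, TR (cR ν U) (cR ν V) (cR ν W) = T U V W) (d : FD ν TR A F D) (hl : 0 < l F)
    (hv : ∀ (P : PDiv X) (S : Cart X), SPr X P.η S → TR (cR ν F) (cR ν A) (cR ν S) = 0 → TR D D (cR ν S) ≤ 0)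
    {P₀ : PDiv X} {S₀ : Cart X} (hS : SPr X P₀.η S₀) (h1 : 0 < TR (cR ν F) (cR ν A) (cR ν S₀))
    (h2 : TR (cR ν F) D (cR ν S₀) = 0) (h3 : TR (cR ν F) (cR ν S₀) (cR ν S₀) = 0) :
    ∃ c' : ℝ, 0 < c' ∧ (∀ u, TR (cR ν F) D u = c' * TR (cR ν F) (cR ν S₀) u) ∧
      TR D D D = c' * TR D D (cR ν S₀) := by
  have hA := d.amp
  have s12 := tr_s12 hr hν hT
  have s23 := tr_s23 hr hν hT
  have hFN : ∀ B : Cart X, Ample B → Ample (B * F) :=
    Pool.Agent.H39.TZ.nf_of_cl h.var hν (by rw [cl_eq h.var hν]; exact d.nef)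
  obtain ⟨m₀, hm0, hm⟩ := Pool.Agent.H24.RG.glb_one h hr hA hFN (fun U => by
    rw [← hT, d.sq, LinearMap.zero_apply]) (by rw [← hT]; exact d.pos)
  -- effective divisors
  have heff : ∀ R : Cart X, 0 < h0 R 1 → TR (cR ν F) D (cR ν R) = 0 → TR D D (cR ν R) ≤ 0 := by
    intro R hR hR0
    obtain ⟨Ls, h4, h5, -⟩ := Pool.Agent.H41.RA.srf_fac h hr hν hT hR
    rw [h5] at hR0
    have h6 : ∀ y ∈ Ls, TR (cR ν F) D (cR ν y.2) = 0 := by
      intro y hy
      have h7 : ∀ x ∈ Ls.map (fun x => TR (cR ν F) D (cR ν x.2)), 0 ≤ x := by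
        intro x hx
        obtain ⟨z, hz, rfl⟩ := List.mem_map.1 hx
        exact fd_S h hr hν hT d z.1 (h4 z hz)
      have h8 := List.single_le_sum h7 (TR (cR ν F) D (cR ν y.2)) (List.mem_map.2 ⟨y, hy, rfl⟩)
      rw [hR0] at h8
      exact le_antisymm h8 (fd_S h hr hν hT d y.1 (h4 y hy))
    rw [h5]
    refine Pool.Agent.H41.RA.sum_np fun y hy => ?_
    have h7 : 0 ≤ TR (cR ν F) (cR ν A) (cR ν y.2) := by
      have h8 := tpa_nn h hr hν hT (trdeg_pdiv h y.1) (h4 y hy) hA d.nef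
      exact h8
    rcases h7.eq_or_lt with h8 | h8
    · exact hv _ _ (h4 y hy) h8.symm
    · exact spc_dd h hr hν hT d y.1 (h4 y hy) h8 (h6 y hy)
  -- the kernel of `T(F,.,.)`, integral classes
  have hker : ∀ v : Cart X, TR (cR ν F) (cR ν v) = 0 → TR D D (cR ν v) = 0 := by
    intro v hv0
    obtain ⟨j, hj⟩ := exists_nat_gt (m₀ / T F S₀ A)
    have hFS : 0 < T F S₀ A := by
      rw [← hT, s23]
      exact h1
    rw [div_lt_iff₀ hFS] at hj
    have key : ∀ w : Cart X, TR (cR ν F) (cR ν w) = 0 → ∀ n : ℕ,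
        (j : ℝ) * TR D D (cR ν S₀) + n * TR D D (cR ν w) ≤ 0 := by
      intro w hw n
      obtain ⟨u, hu⟩ : ∃ u, u = S₀ ^ j * w ^ n := ⟨_, rfl⟩
      have e1 : cR ν u = (j : ℝ) • cR ν S₀ + (n : ℝ) • cR ν w := by
        rw [hu, cR_mul, Pool.Agent.H41.RA.cR_pow, Pool.Agent.H41.RA.cR_pow]
      have e2 : ∀ y, TR (cR ν F) (cR ν u) y = j * TR (cR ν F) (cR ν S₀) y := by
        intro y
        rw [e1]
        simp only [map_add, map_smul, LinearMap.add_apply, LinearMap.smul_apply, smul_eq_mul, hw,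
          LinearMap.zero_apply]
        ring
      obtain ⟨C, n₀, hC⟩ := hm u (by
        rw [← hT, e2, hT]
        exact hj)
      have e3 : T F u u = 0 := by
        rw [← hT, e2, s23, e2, h3]
        ring
      obtain ⟨N, hN⟩ := exists_nat_gt (C / l F)
      rw [div_lt_iff₀ hl] at hN
      have h4 := hC (max N n₀) (le_max_right _ _)
      rw [e3] at h4
      have h5 : (N : ℝ) ≤ ((max N n₀ : ℕ) : ℝ) := by exact_mod_cast le_max_left _ _
      have h6 : (0 : ℝ) < h0 (u * F ^ max N n₀) 1 := by nlinarith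
      have h7 := heff (u * F ^ max N n₀) (by exact_mod_cast h6) (by
        rw [cR_mul, Pool.Agent.H41.RA.cR_pow, map_add, map_smul, s23 _ D (cR ν u), e2, s23 _ (cR ν S₀) D, h2,
          s23 _ D (cR ν F), d.sq, LinearMap.zero_apply]
        simp)
      have e4 : TR D D (cR ν F) = 0 := by
        rw [s23, s12]
        exact d.dd
      rw [cR_mul, Pool.Agent.H41.RA.cR_pow, map_add, map_smul, e4, e1] at h7
      simp only [map_add, map_smul, smul_eq_mul, mul_zero, add_zero] at h7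
      exact h7
    have hle : ∀ w : Cart X, TR (cR ν F) (cR ν w) = 0 → TR D D (cR ν w) ≤ 0 := by
      intro w hw
      by_contra hcon
      push Not at hcon
      obtain ⟨n, hn⟩ := exists_nat_gt (-(j * TR D D (cR ν S₀)) / TR D D (cR ν w))
      rw [div_lt_iff₀ hcon] at hn
      have := key w hw n
      linarith
    refine le_antisymm (hle v hv0) ?_
    have h4 := hle v⁻¹ (by rw [Pool.Agent.H41.RA.cR_inv, map_neg, hv0, neg_zero])
    rw [Pool.Agent.H41.RA.cR_inv, map_neg] at h4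
    linarith
  obtain ⟨c', hc'⟩ : ∃ c', c' = TR (cR ν F) D (cR ν A) / TR (cR ν F) (cR ν S₀) (cR ν A) := ⟨_, rfl⟩
  have hSA : 0 < TR (cR ν F) (cR ν S₀) (cR ν A) := by
    rw [s23]
    exact h1
  have hda := d.da
  have hc0 : 0 < c' := by rw [hc']; positivity
  have hlin : ∀ u, TR (cR ν F) D u = c' * TR (cR ν F) (cR ν S₀) u := by
    intro u
    have h4 := fd_eq h hr hν hT d (u := cR ν S₀) h2 h3 u
    rw [hc']
    field_simp
    linarith
  refine ⟨c', hc0, hlin, ?_⟩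
  -- `D - c' S₀` is in the kernel
  obtain ⟨v, hvd⟩ : ∃ v, v = D - c' • cR ν S₀ := ⟨_, rfl⟩
  have hv1 : ∀ U : Cart X, TR v (cR ν F) (cR ν U) = 0 := by
    intro U
    rw [s12, hvd]
    simp only [map_sub, map_smul, LinearMap.sub_apply, LinearMap.smul_apply, smul_eq_mul]
    rw [hlin, sub_self]
  obtain ⟨cc, dd, hdd, hsum⟩ := vp_sum v (self_vp v)
  have hz : TR D D v = 0 := by
    rw [hsum, map_sum]
    refine Finset.sum_eq_zero fun i _ => ?_
    obtain ⟨W, hW⟩ := ci_surj hν (dd i)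
    have e1 : rv (dd i) = cR ν W := by
      change _ = rv (ci ν W)
      rw [hW]
    rw [map_smul, e1, hker W, smul_zero]
    refine ext_uniq hν fun U => ?_
    rw [LinearMap.zero_apply, s12]
    refine vp_tri hr hν hT h.amp (hv1 U) ?_
    rw [← e1]
    exact hdd i
  rw [hvd, map_sub, map_smul, smul_eq_mul] at hz
  linarith

end Pool.Agent.H24.KN
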