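import Pool.Agent.H47.KN.Ed
import Pool.Agent.H47.KN.Gz
import Pool.Agent.H24.KN.Hor
import Pool.Agent.H24.TU.DerEx

/-!
# [H24 KN Sql] K3 fibrations (MP_e49dc9_ag): `T(F,S,S) ≥ - C T(F,A,S)` for the horizontal prime divisors

`sq_low`: `F` nef; there is `C` with `T(F,S,S) ≥ - C T(F,A,S)` for all prime divisors `S` with `T(F,A,S) > 0`.

PROOF.  `θ i` (`i < 3`) the derivations dual to a transcendence basis, `E` a divisor which bounds their poles (`ex_ed`).  If `E` is a unit at the generic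
point `z` of `S` then some `θ i` does not map the equation of `S` to a function which vanishes on `S` (`der_prm`), and `θ i (S.eq z)` gives a section of
`S + E` on `S` (`sec_der`): `0 ≤ T(F,S+E,S)`, `T(F,E,S) ≤ C T(F,A,S)`.  The components of `E` are finitely many.
-/

set_option autoImplicit false

namespace Pool.Agent.H24.KN

open Pool.Agent.H54.RV Pool.Agent.H83.TU Pool.Agent.H83.TK Pool.Agent.H20.TD Pool.Agent.H20.TP Pool.Agent.H20.RT
open Pool.Agent.H24.VP (RR chS chi)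

variable {k K : Type} [Field k] [Field K] [Algebra k K] {X : Mod k K} {r : ℕ}
  {ν : Cart X →* Multiplicative (Fin r → ℤ)} {T : Cart X → Cart X → Cart X → ℝ} {l : Cart X → ℝ} {c : ℝ} {TR : Tri3 r}
  {A F S E : Cart X} {z : X.P}

/-- the derivative of the equation of `S` is a section of `S + E` on `S` -/
theorem sec_der (hX : IsVar X) (hS : SPr X z S) (δ : Derivation k K K)
    (hst : ∀ x : X.P, ∀ a ∈ X.O x, E.eq x * δ a ∈ X.O x) :
    X.rs z (E.eq z * δ (S.eq z)) ∈ secL (resD hX z (S * E)) 1 := by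
  intro x
  have hzx : z ⤳ x.1 := x.2
  have hle := hX.spec z x.1 hzx
  have hSz : X.rs z (S.eq z) = 0 := by
    by_contra h1
    exact hS.nun z specializes_rfl ((rs_ne z (hS.eff z)).1 h1)
  have hSn := S.ne z
  have hEn := E.ne z
  have hSnx := S.ne x.1
  obtain ⟨u, hu⟩ : ∃ u, u = S.eq x.1 / S.eq z := ⟨_, rfl⟩
  have huO : u ∈ X.O z := by rw [hu]; exact (quo_un S z x.1 hzx).2.1
  have hSx : S.eq x.1 = u * S.eq z := by
    rw [hu]
    field_simp
  have hE1 : E.eq x.1 / E.eq z ∈ X.O z := (quo_un E z x.1 hzx).2.1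
  have hEu : E.eq x.1 * δ u ∈ X.O z := by
    have h1 := (X.O z).mul_mem hE1 (hst z u huO)
    have h2 : E.eq x.1 / E.eq z * (E.eq z * δ u) = E.eq x.1 * δ u := by field_simp
    rwa [h2] at h1
  have hdS : E.eq z * δ (S.eq z) ∈ X.O z := hst z _ (hS.eff z)
  have hSE : (S * E).eq x.1 / (S * E).eq z = u * (E.eq x.1 / E.eq z) := by
    rw [mul_eq, mul_eq, hu]
    field_simp
  have m1 : u * (E.eq x.1 / E.eq z) ∈ X.O z := (X.O z).mul_mem huO hE1
  have m2 : E.eq x.1 * δ (S.eq x.1) ∈ X.O x.1 := hst x.1 _ (hS.eff x.1)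
  have e1 : E.eq z * δ (S.eq z) * (u * (E.eq x.1 / E.eq z)) + S.eq z * (E.eq x.1 * δ u) = E.eq x.1 * δ (S.eq x.1) := by
    rw [hSx, Derivation.leibniz, smul_eq_mul, smul_eq_mul]
    field_simp
  have m3 := (X.O z).mul_mem hdS m1
  have m4 := (X.O z).mul_mem (hS.eff z) hEu
  have e2 := rs_add z m3 m4
  rw [e1, rs_mul z hdS m1, rs_mul z (hS.eff z) hEu, hSz, zero_mul, add_zero] at e2
  rw [pow_one, resD_eq, hSE, ← e2]
  exact rs_mem_subO hX x.2 m2

/-- a component of a product -/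
theorem comp_of [T0Space X.P] (h : Hyp X) {P : PDiv X} :
    ∀ Ls : List (PDiv X × Cart X), (∀ y ∈ Ls, SPr X y.1.η y.2) → ¬ Un (X.O P.η) ((Ls.map Prod.snd).prod.eq P.η) →
      ∃ y ∈ Ls, y.1.η = P.η := by
  intro Ls
  induction Ls with
  | nil =>
    intro _ h1
    exfalso
    apply h1
    rw [List.map_nil, List.prod_nil, one_eq]
    exact un_one _
  | cons y Ls ih =>
    intro h1 h2
    rw [List.map_cons, List.prod_cons, mul_eq] at h2
    by_cases h3 : Un (X.O P.η) (y.2.eq P.η)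
    · obtain ⟨y', hy', h4⟩ := ih (fun y' hy' => h1 y' (List.mem_cons_of_mem _ hy')) fun h4 => h2 (un_mul h3 h4)
      exact ⟨y', List.mem_cons_of_mem _ hy', h4⟩
    · refine ⟨y, List.mem_cons_self, ?_⟩
      have h4 : y.1.η ⤳ P.η := by
        by_contra h5
        exact h3 ((h1 y List.mem_cons_self).un _ h5)
      exact Pool.Agent.H89.RT.eq_of_sp h.var h4 ((trdeg_pdiv h y.1).trans (trdeg_pdiv h P).symm)

theorem sq_low [CharZero k] [IsAlgClosed k] [T0Space X.P] (h : Hyp X) (hr : RR T l c) (hν : NumR ν)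
    (hT : ∀ U V W, TR (cR ν U) (cR ν V) (cR ν W) = T U V W) (hA : Ample A) (hF : cR ν F ∈ closure (CC ν)) :
    ∃ C : ℝ, 0 < C ∧ ∀ (P : PDiv X) (S : Cart X), SPr X P.η S → 0 < T F A S → -(C * T F A S) ≤ T F S S := by
  obtain ⟨b, hb⟩ : ∃ b : Fin 3 → K, IsTranscendenceBasis k b := by
    obtain ⟨b, hb⟩ := Pool.Agent.H20.TU.exists_indep (k := k) (D := K) 3 (by
      have := h.tr
      exact_mod_cast this.ge)
    refine ⟨b, hb.isTranscendenceBasis_of_trdeg_le_of_finite ?_⟩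
    rw [Cardinal.mk_fin, h.tr]
    norm_num
  choose θ hθ using fun i : Fin 3 => Pool.Agent.H24.TU.exists_derivation hb (fun j => if i = j then (1 : K) else 0)
  obtain ⟨E, hE, hE1, hE2⟩ := Pool.Agent.H47.KN.ex_ed h θ b
  obtain ⟨Ls, U, f1, f2, f3, f4⟩ := Pool.Agent.H24.VP.fac_eff h hr hE
  have hAC : cR ν A ∈ CC ν := cc_amp h.var hν hA
  obtain ⟨ε, hε, hεE⟩ := (oc_cc h.var hν).sub_small hAC (cR ν E)
  obtain ⟨C₁, hC₁⟩ : ∃ C₁ : ℝ, C₁ = (Ls.map fun y => |T F y.2 y.2|).sum := ⟨_, rfl⟩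
  have hnn : ∀ y ∈ Ls.map (fun y => |T F y.2 y.2|), 0 ≤ y := by
    intro y hy
    obtain ⟨y', -, rfl⟩ := List.mem_map.1 hy
    exact abs_nonneg _
  have hC₁0 : 0 ≤ C₁ := by
    rw [hC₁]
    exact List.sum_nonneg hnn
  refine ⟨1 / ε + C₁, by positivity, fun P S hS hpos => ?_⟩
  have htr := trdeg_pdiv h P
  by_cases hEz : Un (X.O P.η) (E.eq P.η)
  · -- the general case
    have hEn := E.ne P.η
    have hst : ∀ i, ∀ f ∈ X.O P.η, θ i f ∈ X.O P.η := by
      intro i f hf
      have h1 := (X.O P.η).mul_mem (hE1 P.η i f hf) hEz.2.2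
      have h2 : E.eq P.η * θ i f * (E.eq P.η)⁻¹ = θ i f := by field_simp
      rwa [h2] at h1
    have hx : ∀ i, b i ∈ X.O P.η := by
      intro i
      have h1 := (X.O P.η).mul_mem (hE2 P.η i) hEz.2.2
      have h2 : E.eq P.η * b i * (E.eq P.η)⁻¹ = b i := by field_simp
      rwa [h2] at h1
    obtain ⟨i, hi⟩ := Pool.Agent.H47.KN.der_prm (fun i j => hθ i j) htr hS hx hst
    have h1 := sec_der h.var hS (θ i) (fun x a ha => hE1 x i a ha)
    have h2 : X.rs P.η (E.eq P.η * θ i (S.eq P.η)) ≠ 0 := by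
      rw [rs_mul P.η hEz.2.1 (hst i _ (hS.eff P.η))]
      exact mul_ne_zero ((rs_ne P.η hEz.2.1).2 hEz) hi
    have h3 : 0 < hz h.var P.η (S * E) := by
      have := fd_sub h.var hA P.η (resD h.var P.η (S * E))
      exact Pool.Agent.H32.TK.pos_of_sec _ this h1 h2
    have hms := ms_nef h hr hν hT htr hS hF
    have h4 := hms.eff _ h3
    rw [cR_mul, map_add, LinearMap.add_apply, hT, hT] at h4
    have h5 := ms_TT h hr hν hT htr hS hms (ms_nef h hr hν hT htr hS
      (subset_closure (hεE (-ε) (by rw [abs_neg, abs_of_pos hε]))))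
    rw [map_add, map_smul, LinearMap.add_apply, LinearMap.smul_apply, smul_eq_mul, hT, hT] at h5
    have h6 : T F E S ≤ 1 / ε * T F A S := by
      rw [one_div, ← div_eq_inv_mul, le_div_iff₀ hε]
      linarith
    have h7 : 0 ≤ C₁ * T F A S := by positivity
    linarith
  · -- the components of `E`
    have h1 : ¬ Un (X.O P.η) ((Ls.map Prod.snd).prod.eq P.η) := by
      intro h2
      apply hEz
      rw [f4, mul_eq]
      exact un_mul h2 ⟨U.ne _, f2 _, by have := f3 P.η; rwa [inv_eq] at this⟩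
    obtain ⟨y, hy, hyP⟩ := comp_of h Ls f1 h1
    have h2 : |T F S S| ≤ C₁ := by
      have h3 : T F S S = T F y.2 y.2 := by
        have h4 := f1 y hy
        rw [hyP] at h4
        have e1 : ∀ W, T F W S = T F W y.2 := fun W => Pool.Agent.H89.RT.spr_T h hr hS h4 F W
        rw [e1 S, hr.tri.s23, e1 y.2]
      rw [h3, hC₁]
      exact List.single_le_sum hnn _ (List.mem_map.2 ⟨y, hy, rfl⟩)
    have h3 : 1 ≤ T F A S := by
      obtain ⟨n, hn⟩ := Pool.Agent.H24.VP.t_int hr ⟨A, hA⟩ F A S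
      rw [hn] at hpos ⊢
      have g2 : 0 < n := by exact_mod_cast hpos
      exact_mod_cast g2
    have h4 := neg_abs_le (T F S S)
    have h5 : C₁ ≤ C₁ * T F A S := by nlinarith
    have h6 : 0 ≤ 1 / ε * T F A S := by positivity
    linarith

end Pool.Agent.H24.KN
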