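import Pool.Agent.H43.WR.Def
import Pool.Agent.H24.VP.Pos
import Pool.Agent.H20.TP.Srf
import Pool.Agent.H24.RC.Hl

/-!
# [H24 KN UbP] K3 fibrations (MP_e49dc9_ag): the growth of `h⁰(k A + n F)` in `n`, `F = p D` with a prime divisor `D`

`Pu X F u` (H43/WR/Def): `1` and `u` are sections of `F` without common zeros; the member `F.eq` of the pencil is `p` times a prime divisor `D`
with generic point `z`.  `T D D W = 0`.
`ub_pow`: for `k` large `h⁰(k A + n F) ≤ n (k² T(F,A,A) / 2 + l(F)) + C`, `C` independent of `n`.  `Ubd` is this statement for all ample `A`.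

PROOF.  As in H47/KN/Ub, with steps `D` instead of steps `F`: `h⁰ (W D) ≤ h⁰ W + h⁰ (z, W D)`, and `h⁰ (z, W F) ≤ h⁰ (z, W)` as `u` is a
section of `F` without zeros on `z`.  So only the divisors `k A + s D`, `s < p`, on `z` are needed, and there the number is
`k² T(D,A,A) / 2 + l(D)` for large `k`.
-/

set_option autoImplicit false

namespace Pool.Agent.H24.KN

open Pool.Agent.H54.RV Pool.Agent.H83.TU Pool.Agent.H83.TK Pool.Agent.H20.TD Pool.Agent.H20.TP Pool.Agent.H43.WR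
open Pool.Agent.H24.VP (RR chS chi)

variable {k K : Type} [Field k] [Field K] [Algebra k K] {X : Mod k K}
  {T : Cart X → Cart X → Cart X → ℝ} {l : Cart X → ℝ} {c : ℝ}

/-- the growth of `h⁰(k A + n F)` in `n` -/
def Ubd (X : Mod k K) (T : Cart X → Cart X → Cart X → ℝ) (l : Cart X → ℝ) (F : Cart X) : Prop :=
  ∀ A : Cart X, Ample A → ∃ k₂ : ℕ, ∀ m ≥ k₂, ∃ C : ℝ, ∀ n : ℕ,
    (h0 (A ^ m * F ^ n) 1 : ℝ) ≤ n * ((m : ℝ) ^ 2 * T F A A / 2 + l F) + C

/-- a divisor with a section without zeros -/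
private theorem un_le {κ : Type} [Field κ] [Algebra k κ] {Y : Mod k κ} {D E : Cart Y} {σ : κ} (hσ0 : σ ≠ 0)
    (hσ : ∀ x, Un (Y.O x) (σ * E.eq x)) [FiniteDimensional k (secL D 1)] : h0 (D * E) 1 ≤ h0 D 1 := by
  let m : κ →ₗ[k] κ := LinearMap.mulLeft k σ⁻¹
  have hm : Function.Injective m := fun a b hab => mul_left_cancel₀ (inv_ne_zero hσ0) hab
  have h1 : (secL (D * E) 1).map m ≤ secL D 1 := by
    rintro _ ⟨a, ha, rfl⟩
    intro x
    rw [pow_one]
    have h2 := ha x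
    rw [pow_one, mul_eq] at h2
    have h3 := hσ x
    have hE := E.ne x
    have h4 : σ⁻¹ * a * D.eq x = a * (D.eq x * E.eq x) * (σ * E.eq x)⁻¹ := by
      field_simp
    show σ⁻¹ * a * D.eq x ∈ Y.O x
    rw [h4]
    exact (Y.O x).mul_mem h2 h3.2.2
  have h2 := Submodule.finrank_mono h1
  have h3 : Module.finrank k ((secL (D * E) 1).map m) = h0 (D * E) 1 :=
    ((secL (D * E) 1).equivMapOfInjective m hm).finrank_eq.symm
  rw [h3] at h2
  exact h2

/-- the member of the pencil does not meet itself -/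
theorem hz_P [CharZero k] (h : Hyp X) {F : Cart X} {u : K} (hP : Pu X F u) {z : X.P}
    (hz : ∀ x, z ⤳ x → ¬ Un (X.O x) (F.eq x))
    (W : Cart X) : Pool.Agent.H20.TP.hz h.var z (W * F) ≤ Pool.Agent.H20.TP.hz h.var z W := by
  obtain ⟨A, hA⟩ := h.amp
  have hfs : ∀ W : Cart (subM h.var z), FiniteDimensional k (secL W 1) := fd_sub h.var hA z
  have hun : ∀ x : X.P, z ⤳ x → Un (X.O x) (u * F.eq x) := by
    intro x hx
    rcases hP.bpf x with h1 | h1
    · exact absurd h1 (hz x hx)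
    · exact h1
  have hσ0 : X.rs z (u * F.eq z) ≠ 0 := (rs_ne z (hP.sec z)).2 (hun z specializes_rfl)
  have hux : ∀ x : (subM h.var z).P, Un ((subM h.var z).O x) (X.rs z (u * F.eq z) * (resD h.var z F).eq x) := by
    intro x
    have e1 := rs_sec h.var z F 1 u x (by rw [pow_one]; exact hP.sec x.1)
    rw [pow_one, pow_one, pow_one] at e1
    rw [e1]
    exact (un_subO h.var x.2 (hP.sec x.1)).2 (hun x.1 x.2)
  have := hfs (resD h.var z W)
  have h1 := un_le (D := resD h.var z W) hσ0 hux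
  rw [← map_mul] at h1
  exact h1

theorem ub_pow [CharZero k] (h : Hyp X) (hr : RR T l c) {D : Cart X} {p : ℕ} (hp : 1 ≤ p) {u : K}
    (hP : Pu X (D ^ p) u) {z : X.P} (hz : SPr X z D) (hDD : ∀ W, T D D W = 0) : Ubd X T l (D ^ p) := by
  classical
  intro A hA
  have hF : ∀ x, z ⤳ x → ¬ Un (X.O x) ((D ^ p).eq x) := by
    intro x hx h1
    have hle := h.var.spec z x hx
    refine hz.nun x hx ⟨D.ne x, hle (hz.eff x), hle ?_⟩
    rw [pow_eq] at h1
    have h2 := (X.O x).mul_mem ((X.O x).pow_mem (hz.eff x) (p - 1)) h1.2.2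
    have e : D.eq x ^ (p - 1) * (D.eq x ^ p)⁻¹ = (D.eq x)⁻¹ := by
      have h3 := D.ne x
      have h4 : D.eq x ^ p = D.eq x ^ (p - 1) * D.eq x := by rw [← pow_succ]; congr 1; omega
      rw [h4]
      have h5 : D.eq x ^ (p - 1) ≠ 0 := pow_ne_zero _ h3
      field_simp
    rwa [e] at h2
  choose k₁ hk₁ using fun s : ℕ => ev_srf h hr hz (D ^ s) A hA
  refine ⟨∑ s ∈ Finset.range p, k₁ s, fun m hm => ⟨h0 (A ^ m) 1, fun n => ?_⟩⟩
  obtain ⟨b, hb⟩ : ∃ b : ℝ, b = (m : ℝ) ^ 2 * T D A A / 2 + l D := ⟨_, rfl⟩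
  have hch : ∀ s, chS T l D (D ^ s * A ^ m) = b := by
    intro s
    have e1 : T D D A = 0 := hDD A
    have e2 : T D A D = 0 := by rw [hr.tri.s23]; exact e1
    have e3 : T A D D = 0 := by rw [hr.tri.s12]; exact e2
    have e4 : T A A D = T D A A := by rw [hr.tri.s23, hr.tri.s12]
    unfold chS
    simp only [hr.tri.add, hr.tri.add2, hr.tri.pow, hr.tri.pow2, hDD, e1, e2, e3, e4]
    rw [hb]
    ring
  have hmr : ∀ s < p, (Pool.Agent.H20.TP.hz h.var z (D ^ s * A ^ m) : ℝ) = b := by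
    intro s hs
    have h1 : k₁ s ≤ ∑ s ∈ Finset.range p, k₁ s :=
      Finset.single_le_sum (f := k₁) (fun i _ => Nat.zero_le _) (Finset.mem_range.2 hs)
    have h2 := hk₁ s m (by omega)
    rw [hch] at h2
    exact h2
  have hz2 : ∀ q s : ℕ, Pool.Agent.H20.TP.hz h.var z (D ^ s * A ^ m * (D ^ p) ^ q) ≤
      Pool.Agent.H20.TP.hz h.var z (D ^ s * A ^ m) := by
    intro q s
    induction q with
    | zero => rw [pow_zero, mul_one]
    | succ q ih =>
      rw [pow_succ, ← mul_assoc]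
      exact (hz_P h hP hF _).trans ih
  have hz3 : ∀ i : ℕ, (Pool.Agent.H20.TP.hz h.var z (A ^ m * D ^ i) : ℝ) ≤ b := by
    intro i
    have e1 : A ^ m * D ^ i = D ^ (i % p) * A ^ m * (D ^ p) ^ (i / p) := by
      rw [← pow_mul, mul_comm (D ^ (i % p)), mul_assoc, ← pow_add, Nat.mod_add_div]
    rw [e1, ← hmr (i % p) (Nat.mod_lt _ (by omega))]
    exact_mod_cast hz2 _ _
  have hstep : ∀ i : ℕ, (h0 (A ^ m * D ^ i) 1 : ℝ) ≤ i * b + h0 (A ^ m) 1 := by
    intro i
    induction i with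
    | zero => simp
    | succ i ih =>
      have h1 := Pool.Agent.H24.RC.h0_le_z h hz (A ^ m * D ^ (i + 1))
      have h2 : A ^ m * D ^ (i + 1) * D⁻¹ = A ^ m * D ^ i := by
        rw [pow_succ, ← mul_assoc, mul_inv_cancel_right]
      rw [h2] at h1
      have h3 := hz3 (i + 1)
      have h4 : (h0 (A ^ m * D ^ (i + 1)) 1 : ℝ) ≤ h0 (A ^ m * D ^ i) 1 +
          (Pool.Agent.H20.TP.hz h.var z (A ^ m * D ^ (i + 1)) : ℝ) := by
        exact_mod_cast h1
      push_cast
      linarith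
  have h5 := hstep (p * n)
  rw [pow_mul] at h5
  refine h5.trans (le_of_eq ?_)
  rw [hr.tri.pow, hr.l_pow, hb]
  push_cast
  ring

/-- the case of a prime member -/
theorem ub_one [CharZero k] (h : Hyp X) (hr : RR T l c) {D : Cart X} {u : K}
    (hP : Pu X D u) {z : X.P} (hz : SPr X z D) (hDD : ∀ W, T D D W = 0) : Ubd X T l D := by
  have h1 := ub_pow h hr (p := 1) le_rfl (u := u) (by rwa [pow_one]) hz hDD
  rwa [pow_one] at h1

end Pool.Agent.H24.KN
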