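import Pool.Agent.H24.KN.WxB

/-!
# [H24 KN Wx] K3 fibrations (MP_e49dc9_ag, think 1279 (3)): the divisors `W = x D + a`

`D` in the tangent cone of `F`, `T(F,D,D) = 0 < T(F,D,A)`, `T(D,D,D) < 0`, `l(F) > 0`.  For large `x` there is an integral `W = x D + a`, `a` ample in a
fixed compact set, with nef threshold `τ` in the direction of `F`, `u` the least integer with `W + u F` effective: the estimates `Siz`
(H47/KN/Siz) hold.
-/

set_option autoImplicit false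

namespace Pool.Agent.H24.KN

open Pool.Agent.H54.RV Pool.Agent.H83.TU Pool.Agent.H83.TK Pool.Agent.H20.TD Pool.Agent.H20.TP Pool.Agent.H20.RT
open Pool.Agent.H24.VP (RR chS chi)
open Pool.Agent.H32.KF (Pcl)
open Pool.Agent.H47.KN (Siz)

variable {k K : Type} [Field k] [Field K] [Algebra k K] {X : Mod k K} {r : ℕ}
  {ν : Cart X →* Multiplicative (Fin r → ℤ)} {T : Cart X → Cart X → Cart X → ℝ} {l : Cart X → ℝ} {c : ℝ} {TR : Tri3 r}
  {A F : Cart X} {D : Fin r → ℝ} {s₀ s₁ : K}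

theorem cl_addN (hX : IsVar X) (hν : NumR ν) {x y : Fin r → ℝ} (hx : x ∈ closure (CC ν))
    (hy : y ∈ closure (CC ν)) : x + y ∈ closure (CC ν) := by
  refine map_mem_closure₂ continuous_add hx hy fun a ha b hb => cc_add hX hν ha hb

/-- `T(F,D,a) ≥ 0` for `a` nef -/
theorem fd_nef [CharZero k] [T0Space X.P] (h : Hyp X) (hr : RR T l c) (hν : NumR ν)
    (hT : ∀ U V W, TR (cR ν U) (cR ν V) (cR ν W) = T U V W) (d : FD ν TR A F D) {a : Fin r → ℝ}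
    (ha : a ∈ closure (CC ν)) : 0 ≤ TR (cR ν F) D a := by
  refine Pool.Agent.H24.RC.eps_nn (b := TR (cR ν F) (cR ν A) a) fun e he => ?_
  obtain ⟨t, ht⟩ := d.tan e he
  have h1 := tr_nn h hr hν hT d.nef ht ha
  simp only [map_add, map_smul, LinearMap.add_apply, LinearMap.smul_apply, smul_eq_mul, d.sq, LinearMap.zero_apply,
    mul_zero, add_zero] at h1
  exact h1

/-- the threshold exists -/
theorem wx_thr [CharZero k] [IsAlgClosed k] [T0Space X.P] (h : Hyp X) (hr : RR T l c) (hν : NumR ν)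
    (hT : ∀ U V W, TR (cR ν U) (cR ν V) (cR ν W) = T U V W) (d : FD ν TR A F D) {x : ℝ} (hx : 0 < x) {w : Fin r → ℝ}
    (hw : w - x • D - cR ν A ∈ CC ν) :
    ∃ τ : ℝ, w + τ • cR ν F ∈ closure (CC ν) ∧ ∀ t : ℝ, w + t • cR ν F ∈ closure (CC ν) → τ ≤ t := by
  have hpos := d.pos
  have hAC : cR ν A ∈ CC ν := cc_amp h.var hν d.amp
  refine thr_ex isClosed_closure ?_ ⟨-(TR w (cR ν A) (cR ν A)) / TR (cR ν F) (cR ν A) (cR ν A), fun t ht => ?_⟩
  · obtain ⟨t, ht⟩ := d.tan (1 / x) (by positivity)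
    refine ⟨x * t, ?_⟩
    have h1 := (oc_cc h.var hν).add_cl hw (cl_smul hx.le ht)
    have e1 : w - x • D - cR ν A + x • (D + (1 / x) • cR ν A + t • cR ν F) = w + (x * t) • cR ν F := by
      have e2 : x • ((1 / x) • cR ν A) = cR ν A := by
        rw [smul_smul, mul_one_div_cancel hx.ne', one_smul]
      rw [smul_add, smul_add, e2, smul_smul]
      abel
    rw [e1] at h1
    exact subset_closure h1
  · have h1 := tr_nn h hr hν hT ht (subset_closure hAC) (subset_closure hAC)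
    simp only [map_add, map_smul, LinearMap.add_apply, LinearMap.smul_apply, smul_eq_mul] at h1
    rw [div_le_iff₀ hpos]
    linarith

/-- the least integer exists -/
theorem wx_least [CharZero k] [IsAlgClosed k] [T0Space X.P] (h : Hyp X) (hr : RR T l c) (hν : NumR ν)
    (hT : ∀ U V W, TR (cR ν U) (cR ν V) (cR ν W) = T U V W) (d : FD ν TR A F D) {W : Cart X}
    (hW : ∃ v : ℤ, 0 < h0 (W * F ^ v) 1) : ∃ u : ℤ, 0 < h0 (W * F ^ u) 1 ∧ ∀ v : ℤ, 0 < h0 (W * F ^ v) 1 → u ≤ v := by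
  have hpos := d.pos
  have hAC : cR ν A ∈ CC ν := cc_amp h.var hν d.amp
  obtain ⟨u, hu, hmin⟩ := Int.exists_least_of_bdd (P := fun v => 0 < h0 (W * F ^ v) 1)
    ⟨⌊-(TR (cR ν W) (cR ν A) (cR ν A)) / TR (cR ν F) (cR ν A) (cR ν A)⌋, fun v hv => by
      have h1 := ef_nn h hr hν hT (subset_closure hAC) (subset_closure hAC) hv
      rw [cR_mul, cR_zpow, map_add, map_smul, smul_eq_mul, tr_s23 hr hν hT, tr_s12 hr hν hT,
        tr_s23 hr hν hT (cR ν A) (cR ν A) (cR ν F), tr_s12 hr hν hT (cR ν A) (cR ν F)] at h1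
      have h2 : -(TR (cR ν W) (cR ν A) (cR ν A)) / TR (cR ν F) (cR ν A) (cR ν A) ≤ v := by
        rw [div_le_iff₀ hpos]
        linarith
      have h3 := (Int.floor_le (-(TR (cR ν W) (cR ν A) (cR ν A)) / TR (cR ν F) (cR ν A) (cR ν A))).trans h2
      exact_mod_cast h3⟩ hW
  exact ⟨u, hu, fun v hv => hmin v hv⟩

theorem wx [CharZero k] [IsAlgClosed k] [T0Space X.P] (h : Hyp X) (hr : RR T l c) (hν : NumR ν)
    (hT : ∀ U V W, TR (cR ν U) (cR ν V) (cR ν W) = T U V W) {L : (Fin r → ℝ) →ₗ[ℝ] ℝ} (hL : ∀ U, L (cR ν U) = l U)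
    (d : FD ν TR A F D) (hlF : 0 < l F) (hp : Pcl F s₀ s₁) (hD3 : TR D D D < 0) :
    ∃ c₁ C x₀ : ℝ, 0 < c₁ ∧ 0 < C ∧ 1 ≤ x₀ ∧ ∀ x : ℝ, x₀ ≤ x → ∃ (W : Cart X) (τ : ℝ) (u : ℤ),
      cR ν W - x • D ∈ CC ν ∧ ‖cR ν W - x • D‖ ≤ C ∧
      cR ν W + τ • cR ν F ∈ closure (CC ν) ∧ (∀ t : ℝ, cR ν W + t • cR ν F ∈ closure (CC ν) → τ ≤ t) ∧
      0 < h0 (W * F ^ u) 1 ∧ (∀ v : ℤ, 0 < h0 (W * F ^ v) 1 → u ≤ v) ∧
      Siz (TR D D D) c₁ C (l F) x (T W W W) (T F W W) τ (h0 (W * F ^ ⌈τ⌉) 1) (τ - u) := by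
  obtain ⟨N₀, hN₀, hnear⟩ := wx_near (ν := ν) h.var hν d.amp D
  obtain ⟨Cs, hCs0, hCs⟩ := wx_stp h hr hν hT d hp N₀
  obtain ⟨f, hf⟩ : ∃ f, f = cR ν F := ⟨_, rfl⟩
  obtain ⟨b, hb⟩ : ∃ b, b = cR ν A := ⟨_, rfl⟩
  have s12 := tr_s12 hr hν hT
  have s23 := tr_s23 hr hν hT
  have hff : TR f f = 0 := by rw [hf]; exact d.sq
  have hdd : TR f D D = 0 := by rw [hf]; exact d.dd
  have hda : 0 < TR f D b := by rw [hf, hb]; exact d.da
  have hbC : b ∈ CC ν := by rw [hb]; exact cc_amp h.var hν d.amp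
  have hfC : f ∈ closure (CC ν) := by rw [hf]; exact d.nef
  obtain ⟨B₁, hB₁0, hB₁⟩ := bd_cpt (g := fun a => TR D D a) (cont3' TR continuous_const continuous_const continuous_id) N₀
  obtain ⟨B₂, hB₂0, hB₂⟩ := bd_cpt (g := fun a => TR D a a) (cont3' TR continuous_const continuous_id continuous_id) N₀
  obtain ⟨B₃, hB₃0, hB₃⟩ := bd_cpt (g := fun a => TR a a a) (cont3' TR continuous_id continuous_id continuous_id) N₀
  obtain ⟨B₄, hB₄0, hB₄⟩ := bd_cpt (g := fun a => TR f D a) (cont3' TR continuous_const continuous_const continuous_id) N₀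
  obtain ⟨B₅, hB₅0, hB₅⟩ := bd_cpt (g := fun a => TR f a a) (cont3' TR continuous_const continuous_id continuous_id) N₀
  obtain ⟨Cw, hCw⟩ : ∃ Cw, Cw = 3 * B₁ + 3 * B₂ + B₃ := ⟨_, rfl⟩
  have hCw0 : 0 ≤ Cw := by rw [hCw]; positivity
  obtain ⟨Cb, hCb⟩ : ∃ Cb, Cb = 2 * B₄ + B₅ + 1 := ⟨_, rfl⟩
  have hCb0 : 0 < Cb := by rw [hCb]; positivity
  obtain ⟨θ, hθ⟩ : ∃ θ, θ = -TR D D D := ⟨_, rfl⟩
  have hθ0 : 0 < θ := by rw [hθ]; linarith
  obtain ⟨c₀, hc₀⟩ : ∃ c₀, c₀ = θ / (6 * Cb) := ⟨_, rfl⟩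
  have hc₀0 : 0 < c₀ := by rw [hc₀]; positivity
  obtain ⟨Cx, x₁, hCx0, hx₁, hchi⟩ := wx_chi h hr hν hT hL d N₀ hc₀0
  obtain ⟨C, hC⟩ : ∃ C, C = N₀ + Cw + Cb + Cx + Cs := ⟨_, rfl⟩
  refine ⟨2 * TR f D b, C, max x₁ (max (2 * Cw / θ) ((Cx + 1) / (l F * c₀))), by positivity, by rw [hC]; positivity,
    hx₁.trans (le_max_left _ _), fun x hx => ?_⟩
  have hx1 : x₁ ≤ x := (le_max_left _ _).trans hx
  have hx2 : 2 * Cw / θ ≤ x := (le_max_left _ _).trans ((le_max_right _ _).trans hx)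
  have hx3 : (Cx + 1) / (l F * c₀) ≤ x := (le_max_right _ _).trans ((le_max_right _ _).trans hx)
  have hx4 : 1 ≤ x := hx₁.trans hx1
  have hx0 : 0 < x := by linarith
  obtain ⟨W, hW, hWC⟩ := hnear x
  obtain ⟨w, hw⟩ : ∃ w, w = cR ν W := ⟨_, rfl⟩
  obtain ⟨a, ha⟩ : ∃ a, a = w - x • D := ⟨_, rfl⟩
  have hwa : w = x • D + a := by rw [ha]; abel
  have hWC' := hWC
  rw [← hw, ← ha, ← hb] at hWC'
  have haC : a ∈ CC ν := by
    have h1 := cc_add h.var hν hWC' hbC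
    rwa [sub_add_cancel] at h1
  obtain ⟨τ, hτ1, hτ2⟩ := wx_thr h hr hν hT d hx0 hWC
  have haN : ‖a‖ ≤ N₀ := by rw [ha, hw]; exact hW
  have b1 : |TR D D a| ≤ B₁ := hB₁ a haN
  have b2 : |TR D a a| ≤ B₂ := hB₂ a haN
  have b3 : |TR a a a| ≤ B₃ := hB₃ a haN
  have b4 : |TR f D a| ≤ B₄ := hB₄ a haN
  have b5 : |TR f a a| ≤ B₅ := hB₅ a haN
  have hxx : x ≤ x ^ 2 := by nlinarith
  have hx12 : 1 ≤ x ^ 2 := by nlinarith
  -- `W³`
  have eW3 : T W W W = x ^ 3 * TR D D D + (3 * x ^ 2 * TR D D a + 3 * x * TR D a a + TR a a a) := by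
    rw [← hT, ← hw, hwa, cube_x s12 s23]
    ring
  have hcbw : |T W W W - x ^ 3 * TR D D D| ≤ Cw * x ^ 2 := by
    rw [eW3, add_sub_cancel_left, hCw]
    refine (abs_add_le _ _).trans ?_
    refine (add_le_add (abs_add_le _ _) le_rfl).trans ?_
    rw [abs_mul (3 * x ^ 2), abs_mul (3 * x), abs_of_pos (show 0 < 3 * x ^ 2 by positivity),
      abs_of_pos (show 0 < 3 * x by positivity)]
    have h1 : 3 * x ^ 2 * |TR D D a| ≤ 3 * x ^ 2 * B₁ := mul_le_mul_of_nonneg_left b1 (by positivity)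
    have h2 : 3 * x * |TR D a a| ≤ 3 * x * B₂ := mul_le_mul_of_nonneg_left b2 (by positivity)
    have h3 : B₂ * x ≤ B₂ * x ^ 2 := mul_le_mul_of_nonneg_left hxx hB₂0
    have h4 : B₃ * 1 ≤ B₃ * x ^ 2 := mul_le_mul_of_nonneg_left hx12 hB₃0
    nlinarith
  -- `β`
  have eb : T F W W = 2 * x * TR f D a + TR f a a := by
    rw [← hT, ← hw, ← hf, hwa, sq_x s12 s23, hdd]
    ring
  have hfa : 0 ≤ TR f a a := tr_nn h hr hν hT hfC (subset_closure haC) (subset_closure haC)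
  have hfD : TR f D b ≤ TR f D a := by
    have h1 := fd_nef h hr hν hT d (subset_closure hWC')
    rw [← hf, map_sub] at h1
    linarith
  have hlo : 2 * TR f D b * x ≤ T F W W := by
    rw [eb]
    nlinarith
  have hβ0 : 0 < T F W W := lt_of_lt_of_le (by positivity) hlo
  have hhi : T F W W ≤ Cb * x := by
    rw [eb, hCb]
    have h1 : 2 * x * TR f D a ≤ 2 * x * B₄ := mul_le_mul_of_nonneg_left (abs_le.1 b4).2 (by positivity)
    have h2 : TR f a a ≤ B₅ := (abs_le.1 b5).2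
    have h3 : B₅ ≤ B₅ * x := by nlinarith
    nlinarith
  -- the cube
  have hcub : 0 ≤ T W W W + 3 * τ * T F W W := by
    have h1 := tr_nn h hr hν hT hτ1 hτ1 hτ1
    rw [← hw, ← hf, cube_f s12 s23 hff] at h1
    rw [← hT, ← hT, ← hw, ← hf]
    exact h1
  have hτlo : c₀ * x ^ 2 ≤ τ := by
    rw [hc₀]
    refine tau_lo hθ0 hCb0 hx0 hx2 ?_ hcub hβ0 hhi
    have h1 := (abs_le.1 hcbw).2
    rw [hθ]
    linarith
  have hτ0 : 0 < τ := lt_of_lt_of_le (by positivity) hτlo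
  -- the lower bound
  have hceil := Int.le_ceil τ
  have h1 := hchi x W ⌈τ⌉ hx1 hW (by rw [← hw, ← ha]; exact subset_closure haC) (hτlo.trans hceil) (by
    rw [← hw, ← hf]
    rw [← hw, ← hf] at hτ1
    have h2 : w + ((⌈τ⌉ : ℤ) : ℝ) • f = (w + τ • f) + ((⌈τ⌉ : ℝ) - τ) • f := by module
    rw [h2]
    exact cl_addN h.var hν hτ1 (cl_smul (by linarith) hfC))
  have hchi' : (T W W W + 3 * τ * T F W W) / 6 + l F * τ - Cx * x ≤ h0 (W * F ^ ⌈τ⌉) 1 := by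
    refine le_trans ?_ h1
    have h2 : τ * T F W W ≤ ⌈τ⌉ * T F W W := mul_le_mul_of_nonneg_right hceil hβ0.le
    have h3 : l F * τ ≤ l F * ⌈τ⌉ := mul_le_mul_of_nonneg_left hceil hlF.le
    linarith
  have hpos : 0 < h0 (W * F ^ ⌈τ⌉) 1 := by
    have h2 : 0 < (T W W W + 3 * τ * T F W W) / 6 + l F * τ - Cx * x := by
      rw [div_le_iff₀ (by positivity)] at hx3
      have h3 : l F * (c₀ * x ^ 2) ≤ l F * τ := mul_le_mul_of_nonneg_left hτlo hlF.le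
      have h4 : (Cx + 1) * x ≤ x * (l F * c₀) * x := mul_le_mul_of_nonneg_right hx3 hx0.le
      nlinarith
    have h3 := h2.trans_le hchi'
    exact_mod_cast h3
  obtain ⟨u, hu1, hu2⟩ := wx_least h hr hν hT d ⟨_, hpos⟩
  refine ⟨W, τ, u, by rw [← hw, ← ha]; exact haC, hW.trans ?_, hτ1, hτ2, hu1, hu2, ?_⟩
  · rw [hC]
    linarith
  have hxC : ∀ {y z : ℝ}, y ≤ z → y * x ≤ z * x := fun hyz => mul_le_mul_of_nonneg_right hyz hx0.le
  refine ⟨hcbw.trans ?_, hlo, hhi.trans (hxC ?_), hcub, ?_, ?_⟩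
  · refine mul_le_mul_of_nonneg_right ?_ (by positivity)
    rw [hC]
    linarith
  · rw [hC]
    linarith
  · refine le_trans ?_ hchi'
    have h2 : Cx * x ≤ C * x := hxC (by rw [hC]; linarith)
    linarith
  · -- steps
    have hz : h0 (W * F ^ (u - 1)) 1 = 0 := by
      by_contra hcon
      have := hu2 (u - 1) (Nat.pos_of_ne_zero hcon)
      omega
    have huc := hu2 _ hpos
    obtain ⟨n, hn⟩ : ∃ n : ℕ, (n : ℤ) = ⌈τ⌉ - (u - 1) := ⟨(⌈τ⌉ - (u - 1)).toNat, Int.toNat_of_nonneg (by omega)⟩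
    have h2 := hCs x W (u - 1) hx4 hW ⟨τ, hτ1⟩ hz n
    have e1 : W * F ^ (u - 1) * F ^ n = W * F ^ ⌈τ⌉ := by
      rw [mul_assoc, ← zpow_natCast F n, ← zpow_add, hn]
      congr 2
      ring
    rw [e1] at h2
    refine h2.trans ?_
    have h3 : (n : ℝ) ≤ τ - u + 2 := by
      have h4 : (n : ℝ) = ⌈τ⌉ - (u - 1) := by exact_mod_cast congrArg (fun z : ℤ => (z : ℝ)) hn
      have h5 := (Int.ceil_lt_add_one τ).le
      linarith
    have h4 : (n : ℝ) * (Cs * x) ≤ (τ - u + 2) * (Cs * x) := mul_le_mul_of_nonneg_right h3 (by positivity)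
    have h5 : (τ - u + 2) * (Cs * x) ≤ (τ - u + 2) * (C * x) := by
      refine mul_le_mul_of_nonneg_left (hxC (by rw [hC]; linarith)) ?_
      exact (Nat.cast_nonneg n).trans h3
    linarith

end Pool.Agent.H24.KN
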