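import Pool.Agent.H24.KN.Hor
import Pool.Agent.H47.KN.Siz
import Pool.Agent.H32.KF.Star

/-!
# [H24 KN WxA] K3 fibrations (MP_e49dc9_ag, think 1279 (3)): preparations for `wx`

* `wx_near`: integral classes near `x D`, with ample difference.  `thr_ex`: the nef threshold.  `cube_f`, `cube_x`, `sq_x`: expansions.
* `bd_cpt`: bounds on a ball.  `tau_lo`, `lbp_num`: numbers.
-/

set_option autoImplicit false

namespace Pool.Agent.H24.KN

open Pool.Agent.H54.RV Pool.Agent.H83.TU Pool.Agent.H83.TK Pool.Agent.H20.TD Pool.Agent.H20.TP Pool.Agent.H20.RT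
open Pool.Agent.H24.VP (RR chS chi)
open Pool.Agent.H89.RT (near_one)

variable {k K : Type} [Field k] [Field K] [Algebra k K] {X : Mod k K} {r : ℕ}
  {ν : Cart X →* Multiplicative (Fin r → ℤ)} {T : Cart X → Cart X → Cart X → ℝ} {l : Cart X → ℝ} {c : ℝ} {TR : Tri3 r}
  {A F : Cart X} {D w f a : Fin r → ℝ}

theorem wx_near (hX : IsVar X) (hν : NumR ν) (hA : Ample A) (D : Fin r → ℝ) :
    ∃ N₀ : ℝ, 0 < N₀ ∧ ∀ x : ℝ, ∃ W : Cart X, ‖cR ν W - x • D‖ ≤ N₀ ∧ cR ν W - x • D - cR ν A ∈ CC ν := by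
  obtain ⟨b, hb, hball⟩ := cc_ball (ν := ν) hX hν hA
  refine ⟨(b + 1) * ‖cR ν A‖ + 1, by positivity, fun x => ?_⟩
  obtain ⟨W, hW⟩ := near_one (X := X) hν (x • D + (b + 1) • cR ν A)
  refine ⟨W, ?_, ?_⟩
  · have h1 : cR ν W - x • D = (b + 1) • cR ν A + (cR ν W - (x • D + (b + 1) • cR ν A)) := by abel
    rw [h1]
    refine (norm_add_le _ _).trans (add_le_add ?_ hW)
    rw [norm_smul, Real.norm_eq_abs, abs_of_pos (by linarith)]
  · have h2 := hball (-(cR ν W - (x • D + (b + 1) • cR ν A))) (by rwa [norm_neg])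
    have h1 : cR ν W - x • D - cR ν A = b • cR ν A - -(cR ν W - (x • D + (b + 1) • cR ν A)) := by module
    rw [h1]
    exact h2

theorem thr_ex {C : Set (Fin r → ℝ)} (hC : IsClosed C) {w f : Fin r → ℝ} (h1 : ∃ t : ℝ, w + t • f ∈ C)
    (h2 : ∃ m : ℝ, ∀ t : ℝ, w + t • f ∈ C → m ≤ t) :
    ∃ τ : ℝ, w + τ • f ∈ C ∧ ∀ t : ℝ, w + t • f ∈ C → τ ≤ t := by
  obtain ⟨S, hS⟩ : ∃ S : Set ℝ, S = {t | w + t • f ∈ C} := ⟨_, rfl⟩
  have hcl : IsClosed S := by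
    rw [hS]
    exact hC.preimage (by fun_prop)
  have hne : S.Nonempty := by
    obtain ⟨t, ht⟩ := h1
    exact ⟨t, by rw [hS]; exact ht⟩
  have hbd : BddBelow S := by
    obtain ⟨m, hm⟩ := h2
    exact ⟨m, fun t ht => hm t (by rw [hS] at ht; exact ht)⟩
  have h3 := hcl.csInf_mem hne hbd
  refine ⟨sInf S, ?_, fun t ht => csInf_le hbd (by rw [hS]; exact ht)⟩
  rw [hS] at h3
  rw [hS]
  exact h3

theorem bd_cpt {g : (Fin r → ℝ) → ℝ} (hg : Continuous g) (N : ℝ) : ∃ C : ℝ, 0 ≤ C ∧ ∀ u, ‖u‖ ≤ N → |g u| ≤ C := by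
  obtain ⟨C, hC⟩ := (isCompact_closedBall (0 : Fin r → ℝ) N).exists_bound_of_continuousOn hg.continuousOn
  refine ⟨|C|, abs_nonneg _, fun u hu => ?_⟩
  exact (hC u (by rwa [mem_closedBall_zero_iff])).trans (le_abs_self C)

/-- `(w + t f)³` -/
theorem cube_f (s12 : ∀ u v w, TR u v w = TR v u w) (s23 : ∀ u v w, TR u v w = TR u w v) (hff : TR f f = 0) (t : ℝ) :
    TR (w + t • f) (w + t • f) (w + t • f) = TR w w w + 3 * t * TR f w w := by
  have e0 : ∀ v, TR f f v = 0 := fun v => by rw [hff]; rfl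
  simp only [map_add, map_smul, LinearMap.add_apply, LinearMap.smul_apply, smul_eq_mul]
  rw [e0, e0, s12 w f w, s23 w w f, s12 w f w, s23 f w f, e0, s12 w f f, s23 f w f, e0]
  ring

/-- `(x D + a)³` -/
theorem cube_x (s12 : ∀ u v w, TR u v w = TR v u w) (s23 : ∀ u v w, TR u v w = TR u w v) (x : ℝ) :
    TR (x • D + a) (x • D + a) (x • D + a) = x ^ 3 * TR D D D + 3 * x ^ 2 * TR D D a + 3 * x * TR D a a + TR a a a := by
  simp only [map_add, map_smul, LinearMap.add_apply, LinearMap.smul_apply, smul_eq_mul]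
  rw [s23 D a D, s12 a D D, s23 D a D, s12 a D a, s23 a a D, s12 a D a]
  ring

theorem sq_x (s12 : ∀ u v w, TR u v w = TR v u w) (s23 : ∀ u v w, TR u v w = TR u w v) (x : ℝ) :
    TR f (x • D + a) (x • D + a) = x ^ 2 * TR f D D + 2 * x * TR f D a + TR f a a := by
  simp only [map_add, map_smul, LinearMap.add_apply, LinearMap.smul_apply, smul_eq_mul]
  rw [s23 f a D]
  ring

/-- `(w + t f)² v` -/
theorem sq_f (s12 : ∀ u v w, TR u v w = TR v u w) (hff : TR f f = 0) (t : ℝ) (v : Fin r → ℝ) :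
    TR (w + t • f) (w + t • f) v = TR w w v + 2 * t * TR f w v := by
  have e0 : ∀ v, TR f f v = 0 := fun v => by rw [hff]; rfl
  simp only [map_add, map_smul, LinearMap.add_apply, LinearMap.smul_apply, smul_eq_mul]
  rw [e0, s12 w f v]
  ring

theorem tau_lo {θ Cw Cb x W3 β τ : ℝ} (hθ : 0 < θ) (hCb : 0 < Cb) (hx0 : 0 < x) (hx : 2 * Cw / θ ≤ x)
    (h1 : W3 ≤ -(θ * x ^ 3) + Cw * x ^ 2) (h2 : 0 ≤ W3 + 3 * τ * β) (h3 : 0 < β) (h4 : β ≤ Cb * x) :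
    θ / (6 * Cb) * x ^ 2 ≤ τ := by
  have h5 : Cw * x ^ 2 ≤ θ * x ^ 3 / 2 := by
    rw [div_le_iff₀ hθ] at hx
    have h6 : 2 * Cw * x ^ 2 ≤ x * θ * x ^ 2 := mul_le_mul_of_nonneg_right hx (by positivity)
    nlinarith
  have h6 : θ * x ^ 3 / 2 ≤ 3 * τ * β := by linarith
  have hτ : 0 < τ := by
    by_contra hcon
    push Not at hcon
    have h7 : 3 * τ * β ≤ 0 := by nlinarith
    have h8 : 0 < θ * x ^ 3 / 2 := by positivity
    linarith
  have h7 : 3 * τ * β ≤ 3 * τ * (Cb * x) := mul_le_mul_of_nonneg_left h4 (by positivity)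
  have h8 : θ / (6 * Cb) * x ^ 2 * (3 * (Cb * x)) = θ * x ^ 3 / 2 := by
    field_simp
    ring
  have h9 : θ / (6 * Cb) * x ^ 2 * (3 * (Cb * x)) ≤ τ * (3 * (Cb * x)) := by
    rw [h8]
    linarith
  exact le_of_mul_le_mul_right h9 (by positivity)

theorem lbp_num {c₀ q p C₈ C₉ : ℝ} (hc₀ : 0 < c₀) (hq : 0 < q) (hp : 0 < p) (hC₈ : 0 ≤ C₈) (hC₉ : 0 ≤ C₉) (m α C₁ : ℝ) (hm : 0 ≤ m) :
    ∃ x₀ : ℝ, 1 ≤ x₀ ∧ ∀ x t NAA NNA : ℝ, x₀ ≤ x → c₀ * x ^ 2 ≤ t → t * p - C₉ * x ≤ NAA → NAA ≤ t * p + C₉ * x →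
      2 * t * x * q - C₈ * x ^ 2 ≤ NNA → 2 * m * α < NAA ∧ 3 * m * NAA + C₁ ≤ NNA ∧ 0 < NNA := by
  obtain ⟨x₁, hx₁⟩ : ∃ x₁, x₁ = 3 * m * p / q := ⟨_, rfl⟩
  obtain ⟨x₂, hx₂⟩ : ∃ x₂, x₂ = (C₈ + 3 * m * C₉ + |C₁| + 1) / (c₀ * q) := ⟨_, rfl⟩
  obtain ⟨x₃, hx₃⟩ : ∃ x₃, x₃ = (C₉ + 2 * m * |α| + 1) / (c₀ * p) := ⟨_, rfl⟩
  refine ⟨max 1 (max x₁ (max x₂ x₃)), le_max_left _ _, fun x t NAA NNA hx ht h1 h2 h3 => ?_⟩
  have a1 : 1 ≤ x := (le_max_left _ _).trans hx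
  have a2 : x₁ ≤ x := (le_max_left _ _).trans ((le_max_right _ _).trans hx)
  have a3 : x₂ ≤ x := (le_max_left _ _).trans ((le_max_right _ _).trans ((le_max_right _ _).trans hx))
  have a4 : x₃ ≤ x := (le_max_right _ _).trans ((le_max_right _ _).trans ((le_max_right _ _).trans hx))
  rw [hx₁, div_le_iff₀ hq] at a2
  rw [hx₂, div_le_iff₀ (by positivity)] at a3
  rw [hx₃, div_le_iff₀ (by positivity)] at a4
  have hx0 : 0 < x := by linarith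
  have ht0 : 0 < t := lt_of_lt_of_le (by positivity) ht
  have hxx : x ≤ x ^ 2 := by nlinarith
  have hx2 : 1 ≤ x ^ 2 := by nlinarith
  -- `NNA - 3 m NAA`
  have b1 : t * (3 * m * p) ≤ t * (x * q) := mul_le_mul_of_nonneg_left a2 ht0.le
  have b2 : c₀ * x ^ 2 * (x * q) ≤ t * (x * q) := mul_le_mul_of_nonneg_right ht (by positivity)
  have b3 : (C₈ + 3 * m * C₉ + |C₁| + 1) * x ^ 2 ≤ x * (c₀ * q) * x ^ 2 := mul_le_mul_of_nonneg_right a3 (by positivity)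
  have b4 : 3 * m * NAA ≤ 3 * m * (t * p + C₉ * x) := mul_le_mul_of_nonneg_left h2 (by positivity)
  have b5 : 3 * m * C₉ * x ≤ 3 * m * C₉ * x ^ 2 := mul_le_mul_of_nonneg_left hxx (by positivity)
  have b6 : |C₁| ≤ |C₁| * x ^ 2 := by
    have := mul_le_mul_of_nonneg_left hx2 (abs_nonneg C₁)
    linarith
  have b7 := le_abs_self C₁
  have b8 : 3 * m * NAA + |C₁| < NNA := by nlinarith
  have b9 : 2 * m * α ≤ 2 * m * |α| := mul_le_mul_of_nonneg_left (le_abs_self α) (by positivity)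
  have c1 : c₀ * x ^ 2 * p ≤ t * p := mul_le_mul_of_nonneg_right ht hp.le
  have c2 : (C₉ + 2 * m * |α| + 1) * x ≤ x * (c₀ * p) * x := mul_le_mul_of_nonneg_right a4 hx0.le
  have c3 : 2 * m * |α| ≤ 2 * m * |α| * x := by
    have : 0 ≤ 2 * m * |α| := by positivity
    nlinarith
  have c4 : 2 * m * |α| < NAA := by nlinarith
  have c5 : 0 ≤ 3 * m * NAA := by
    have : 0 ≤ 2 * m * |α| := by positivity
    have : 0 ≤ NAA := by linarith
    positivity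
  refine ⟨by linarith, by linarith, by linarith [abs_nonneg C₁]⟩

end Pool.Agent.H24.KN
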