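import Pool.Agent.H24.KN.WxA
import Pool.Agent.H24.KN.Rkc

/-!
# [H24 KN WxB] K3 fibrations (MP_e49dc9_ag, think 1279 (3)): steps and the lower bound for `W = x D + a`

* `wx_stp`: `h⁰(W + (v + n) F) ≤ n C x` if `h⁰(W + v F) = 0` (`rkc`).
* `wx_chi`: `h⁰(W + t F) ≥ ((W³ + 3 t T(F,W,W)) / 6 + t l(F)) - C x` for `t ≥ c₀ x²` with `W + t F` nef (`lbp`).
-/

set_option autoImplicit false

namespace Pool.Agent.H24.KN

open Pool.Agent.H54.RV Pool.Agent.H83.TU Pool.Agent.H83.TK Pool.Agent.H20.TD Pool.Agent.H20.TP Pool.Agent.H20.RT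
open Pool.Agent.H24.VP (RR chS chi)
open Pool.Agent.H32.KF (Pcl)
open Pool.Agent.H41.RA (cR_pow cR_inv)

variable {k K : Type} [Field k] [Field K] [Algebra k K] {X : Mod k K} {r : ℕ}
  {ν : Cart X →* Multiplicative (Fin r → ℤ)} {T : Cart X → Cart X → Cart X → ℝ} {l : Cart X → ℝ} {c : ℝ} {TR : Tri3 r}
  {A F : Cart X} {D : Fin r → ℝ} {s₀ s₁ : K}

theorem cR_zpow (U : Cart X) (n : ℤ) : cR ν (U ^ n) = (n : ℝ) • cR ν U := by
  change rv (ci ν (U ^ n)) = _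
  rw [ci_zpow, rv_smul]

theorem wx_stp [CharZero k] [IsAlgClosed k] [T0Space X.P] (h : Hyp X) (hr : RR T l c) (hν : NumR ν)
    (hT : ∀ U V W, TR (cR ν U) (cR ν V) (cR ν W) = T U V W) (d : FD ν TR A F D) (hp : Pcl F s₀ s₁) (N₀ : ℝ) :
    ∃ C : ℝ, 0 ≤ C ∧ ∀ (x : ℝ) (W : Cart X) (v : ℤ), 1 ≤ x → ‖cR ν W - x • D‖ ≤ N₀ →
      (∃ t : ℝ, cR ν W + t • cR ν F ∈ closure (CC ν)) → h0 (W * F ^ v) 1 = 0 →
      ∀ n : ℕ, (h0 (W * F ^ v * F ^ n) 1 : ℝ) ≤ n * (C * x) := by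
  obtain ⟨P, S, hS, hDS, hAS⟩ := ex_hor h hr hν hT d
  have htr := trdeg_pdiv h P
  obtain ⟨f, hf⟩ : ∃ f, f = cR ν F := ⟨_, rfl⟩
  obtain ⟨s, hs⟩ : ∃ s, s = cR ν S := ⟨_, rfl⟩
  have s12 := tr_s12 hr hν hT
  have s23 := tr_s23 hr hν hT
  have hff : TR f f = 0 := by rw [hf]; exact d.sq
  have e0 : ∀ v, TR f f v = 0 := fun v => by rw [hff]; rfl
  obtain ⟨hu, ht⟩ := pcl_hor h hr hν hT d.amp d.nef (by rw [← hf]; exact e0 _) hS hp hAS
  have hAC : cR ν A ∈ CC ν := cc_amp h.var hν d.amp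
  -- `j`
  obtain ⟨C₄, hC₄0, hC₄⟩ := bd_cpt (g := fun a => TR f D a) (cont3' TR continuous_const continuous_const continuous_id) N₀
  obtain ⟨C₅, hC₅0, hC₅⟩ := bd_cpt (g := fun a => TR a f s) (cont3' TR continuous_id continuous_const continuous_const) N₀
  rw [← hf, ← hs] at hDS
  obtain ⟨j, hj⟩ := exists_nat_gt (C₄ / TR f D s)
  rw [div_lt_iff₀ hDS] at hj
  -- `A'`
  obtain ⟨ε, hε, hεs⟩ := (oc_cc h.var hν).sub_small hAC s
  obtain ⟨N₁, hN₁⟩ := exists_nat_gt ((j : ℝ) / ε)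
  have hN₁0 : (0 : ℝ) < N₁ := lt_of_le_of_lt (by positivity) hN₁
  have hN₁1 : 1 ≤ N₁ := by exact_mod_cast hN₁0
  have hA' : Ample (A ^ N₁) := ample_pow A N₁ hN₁1 d.amp
  have hFn : ∀ B : Cart X, Ample B → Ample (B * F) :=
    Pool.Agent.H39.TZ.nf_of_cl h.var hν (by rw [cl_eq h.var hν]; exact d.nef)
  obtain ⟨dd, C', hC', hrk⟩ := rkc h hr hA' hFn hS htr hp (by rw [← hT, ← hf]; exact e0 _) hu ht
  obtain ⟨K₁, hK₁⟩ : ∃ K₁, K₁ = |TR D f s| + C₅ + j * |TR s f s| := ⟨_, rfl⟩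
  have hK₁0 : 0 ≤ K₁ := by rw [hK₁]; positivity
  refine ⟨j * (dd * (K₁ + C')), by positivity, fun x W v hx hW hnef hz n => ?_⟩
  obtain ⟨w, hw⟩ : ∃ w, w = cR ν W := ⟨_, rfl⟩
  obtain ⟨a, ha⟩ : ∃ a, a = w - x • D := ⟨_, rfl⟩
  have hwa : w = x • D + a := by rw [ha]; abel
  rw [← hw, ← ha] at hW
  rw [← hw, ← hf] at hnef
  have hx0 : 0 < x := by linarith
  have h1 := hrk (W * F ^ v) j (fun i hi => ?_) (fun m => ?_) n
  · rw [hz, Nat.cast_zero, zero_add] at h1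
    refine h1.trans ?_
    refine mul_le_mul_of_nonneg_left ?_ (Nat.cast_nonneg n)
    have h2 : ∀ i ∈ Finset.range j, (dd : ℝ) * (T (W * F ^ v * (S ^ i)⁻¹) F S + C') ≤ dd * (K₁ + C') * x := by
      intro i hi
      rw [Finset.mem_range] at hi
      have e1 : T (W * F ^ v * (S ^ i)⁻¹) F S = x * TR D f s + TR a f s - i * TR s f s := by
        rw [← hT, cR_mul, cR_mul, cR_inv, cR_pow, cR_zpow, ← hw, ← hf, ← hs, hwa]
        simp only [map_add, map_neg, map_smul, LinearMap.add_apply, LinearMap.neg_apply, LinearMap.smul_apply, smul_eq_mul]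
        rw [e0]
        ring
      have e2 : x * TR D f s ≤ x * |TR D f s| := mul_le_mul_of_nonneg_left (le_abs_self _) hx0.le
      have e3 : TR a f s ≤ C₅ := (abs_le.1 (hC₅ a hW)).2
      have e4 : -(i * TR s f s) ≤ j * |TR s f s| := by
        have e5 : -(i * TR s f s) ≤ i * |TR s f s| := by
          have := neg_abs_le (TR s f s)
          have := mul_le_mul_of_nonneg_left this (Nat.cast_nonneg (α := ℝ) i)
          linarith
        have e6 : (i : ℝ) ≤ j := by exact_mod_cast hi.le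
        exact e5.trans (mul_le_mul_of_nonneg_right e6 (abs_nonneg _))
      have e7 : T (W * F ^ v * (S ^ i)⁻¹) F S + C' ≤ (K₁ + C') * x := by
        rw [e1, hK₁]
        have e8 : C₅ ≤ C₅ * x := by nlinarith
        have e9 : j * |TR s f s| ≤ j * |TR s f s| * x := by
          have : 0 ≤ j * |TR s f s| := by positivity
          nlinarith
        have e10 : C' ≤ C' * x := by nlinarith
        nlinarith
      rw [mul_assoc (dd : ℝ)]
      exact mul_le_mul_of_nonneg_left e7 (Nat.cast_nonneg _)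
    refine (Finset.sum_le_card_nsmul _ _ _ h2).trans (le_of_eq ?_)
    rw [Finset.card_range, nsmul_eq_mul]
    ring
  · obtain ⟨t, ht'⟩ := hnef
    obtain ⟨n', hn'⟩ := exists_nat_gt (t - v)
    refine ⟨n', cc_ample (ν := ν) ?_⟩
    change cR ν (W * F ^ v * (S ^ i)⁻¹ * F ^ n' * A ^ N₁) ∈ CC ν
    have e1 : cR ν (W * F ^ v * (S ^ i)⁻¹ * F ^ n' * A ^ N₁) =
        (((N₁ : ℝ) - i / ε) • cR ν A + ((i : ℝ) / ε) • (cR ν A + (-ε) • s)) + ((w + t • f) + ((v : ℝ) + n' - t) • f) := by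
      rw [cR_mul, cR_mul, cR_mul, cR_mul, cR_inv, cR_pow, cR_pow, cR_pow, cR_zpow, ← hw, ← hf, ← hs]
      have e2 : ((i : ℝ) / ε) • (cR ν A + (-ε) • s) = ((i : ℝ) / ε) • cR ν A - (i : ℝ) • s := by
        rw [smul_add, smul_smul, mul_neg, div_mul_cancel₀ _ hε.ne', neg_smul, ← sub_eq_add_neg]
      rw [e2]
      module
    rw [e1]
    have hoc := oc_cc h.var hν
    have hij : (i : ℝ) / ε ≤ j / ε := by
      have : (i : ℝ) ≤ j := by exact_mod_cast hi.le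
      exact div_le_div_of_nonneg_right this hε.le
    have g1 : ((N₁ : ℝ) - i / ε) • cR ν A + ((i : ℝ) / ε) • (cR ν A + (-ε) • s) ∈ CC ν := by
      refine hoc.add_cl (cc_smul (by linarith) hAC) (cl_smul (by positivity) (subset_closure ?_))
      exact hεs (-ε) (by rw [abs_neg, abs_of_pos hε])
    have g2 := hoc.add_cl g1 ht'
    have g3 := hoc.add_cl g2 (cl_smul (t := (v : ℝ) + n' - t) (by linarith) (by rw [hf]; exact d.nef) :
      ((v : ℝ) + n' - t) • f ∈ closure (CC ν))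
    rw [add_assoc] at g3
    exact g3
  · by_contra hcon
    have h2 := ef_D h hr hν hT d (W := W * F ^ v * F ^ m * (S ^ j)⁻¹) (Nat.pos_of_ne_zero hcon)
    have e1 : TR (cR ν F) D (cR ν (W * F ^ v * F ^ m * (S ^ j)⁻¹)) = TR f D a - j * TR f D s := by
      rw [cR_mul, cR_mul, cR_mul, cR_inv, cR_pow, cR_pow, cR_zpow, ← hw, ← hf, ← hs, hwa]
      simp only [map_add, map_neg, map_smul, smul_eq_mul]
      have hdd : TR f D D = 0 := by rw [hf]; exact d.dd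
      rw [hdd, s23 f D f, e0]
      ring
    rw [e1] at h2
    have h3 := (abs_le.1 (hC₄ a hW)).2
    have h4 : TR f D a ≤ C₄ := h3
    linarith

theorem wx_chi [CharZero k] [IsAlgClosed k] [T0Space X.P] (h : Hyp X) (hr : RR T l c) (hν : NumR ν)
    (hT : ∀ U V W, TR (cR ν U) (cR ν V) (cR ν W) = T U V W) {L : (Fin r → ℝ) →ₗ[ℝ] ℝ} (hL : ∀ U, L (cR ν U) = l U)
    (d : FD ν TR A F D) (N₀ : ℝ) {c₀ : ℝ} (hc₀ : 0 < c₀) :
    ∃ C x₀ : ℝ, 0 ≤ C ∧ 1 ≤ x₀ ∧ ∀ (x : ℝ) (W : Cart X) (t : ℤ), x₀ ≤ x → ‖cR ν W - x • D‖ ≤ N₀ →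
      cR ν W - x • D ∈ closure (CC ν) → c₀ * x ^ 2 ≤ t → cR ν W + (t : ℝ) • cR ν F ∈ closure (CC ν) →
      (T W W W + 3 * t * T F W W) / 6 + l F * t - C * x ≤ h0 (W * F ^ t) 1 := by
  obtain ⟨m, C₀, C₁, hm, hlb⟩ := Pool.Agent.H32.KF.lbp h hr d.amp
  obtain ⟨f, hf⟩ : ∃ f, f = cR ν F := ⟨_, rfl⟩
  obtain ⟨b, hb⟩ : ∃ b, b = cR ν A := ⟨_, rfl⟩
  have s12 := tr_s12 hr hν hT
  have s23 := tr_s23 hr hν hT
  have hff : TR f f = 0 := by rw [hf]; exact d.sq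
  have e0 : ∀ v, TR f f v = 0 := fun v => by rw [hff]; rfl
  have hq := d.da
  have hpp := d.pos
  rw [← hf, ← hb] at hq hpp
  have hbC : b ∈ closure (CC ν) := by rw [hb]; exact subset_closure (cc_amp h.var hν d.amp)
  have hfC : f ∈ closure (CC ν) := by rw [hf]; exact d.nef
  obtain ⟨B₁, hB₁0, hB₁⟩ := bd_cpt (g := fun a => TR D a b) (cont3' TR continuous_const continuous_id continuous_const) N₀
  obtain ⟨B₂, hB₂0, hB₂⟩ := bd_cpt (g := fun a => TR a a b) (cont3' TR continuous_id continuous_id continuous_const) N₀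
  obtain ⟨B₃, hB₃0, hB₃⟩ := bd_cpt (g := fun a => TR a b b) (cont3' TR continuous_id continuous_const continuous_const) N₀
  obtain ⟨B₄, hB₄0, hB₄⟩ := bd_cpt (g := fun a => L a) L.continuous_of_finiteDimensional N₀
  obtain ⟨x₀, hx₀, hnum⟩ := lbp_num hc₀ hq hpp (C₈ := |TR D D b| + 2 * B₁ + B₂) (C₉ := |TR D b b| + B₃)
    (by positivity) (by positivity) m (T A A A) C₁ (Nat.cast_nonneg m)
  refine ⟨|L D| + B₄ + |c| + |C₀|, x₀, by positivity, hx₀, fun x W t hx hW haC ht hnef => ?_⟩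
  obtain ⟨w, hw⟩ : ∃ w, w = cR ν W := ⟨_, rfl⟩
  obtain ⟨a, ha⟩ : ∃ a, a = w - x • D := ⟨_, rfl⟩
  have hwa : w = x • D + a := by rw [ha]; abel
  rw [← hw, ← ha] at hW haC
  rw [← hw, ← hf] at hnef
  have hx1 : 1 ≤ x := hx₀.trans hx
  have hx0 : 0 < x := by linarith
  have ht0 : (0 : ℝ) < t := lt_of_lt_of_le (by positivity) ht
  have hN : cR ν (W * F ^ t) = w + (t : ℝ) • f := by rw [cR_mul, cR_zpow, ← hw, ← hf]
  have eNAA : T (W * F ^ t) A A = t * TR f b b + (x * TR D b b + TR a b b) := by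
    rw [← hT, hN, ← hb, hwa]
    simp only [map_add, map_smul, LinearMap.add_apply, LinearMap.smul_apply, smul_eq_mul]
    ring
  have eNNA : T (W * F ^ t) (W * F ^ t) A =
      (x ^ 2 * TR D D b + 2 * x * TR D a b + TR a a b) + 2 * t * (x * TR f D b + TR f a b) := by
    rw [← hT, hN, ← hb, sq_f s12 hff, hwa]
    simp only [map_add, map_smul, LinearMap.add_apply, LinearMap.smul_apply, smul_eq_mul]
    rw [s12 a D b]
    ring
  have b1 := abs_le.1 (hB₁ a hW)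
  have b2 := abs_le.1 (hB₂ a hW)
  have b3 := abs_le.1 (hB₃ a hW)
  have b4 := abs_le.1 (hB₄ a hW)
  have b5 : 0 ≤ TR f a b := tr_nn h hr hν hT hfC haC hbC
  have hxx : x ≤ x ^ 2 := by nlinarith
  have c1 : |x * TR D b b + TR a b b| ≤ (|TR D b b| + B₃) * x := by
    refine (abs_add_le _ _).trans ?_
    rw [abs_mul, abs_of_pos hx0]
    have := hB₃ a hW
    have h2 : B₃ ≤ B₃ * x := by nlinarith
    have h3 : |TR a b b| ≤ B₃ := this
    linarith
  have c2 : -((|TR D D b| + 2 * B₁ + B₂) * x ^ 2) ≤ x ^ 2 * TR D D b + 2 * x * TR D a b + TR a a b := by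
    have h1 : x ^ 2 * (-|TR D D b|) ≤ x ^ 2 * TR D D b := mul_le_mul_of_nonneg_left (neg_abs_le _) (by positivity)
    have h2 : 2 * x * (-B₁) ≤ 2 * x * TR D a b := mul_le_mul_of_nonneg_left b1.1 (by positivity)
    have h3 : B₁ * x ≤ B₁ * x ^ 2 := mul_le_mul_of_nonneg_left hxx hB₁0
    have h4 : B₂ ≤ B₂ * x ^ 2 := by
      have : 1 ≤ x ^ 2 := by nlinarith
      nlinarith
    have h5 : -B₂ ≤ TR a a b := b2.1
    linarith
  rw [abs_le] at c1
  obtain ⟨h1, h2, h3⟩ := hnum x t (T (W * F ^ t) A A) (T (W * F ^ t) (W * F ^ t) A) hx ht (by rw [eNAA]; linarith)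
    (by rw [eNAA]; linarith) (by
      rw [eNNA]
      have h6 : 0 ≤ 2 * (t : ℝ) * TR f a b := by positivity
      linarith)
  have h4 := hlb (W * F ^ t)
    (Pool.Agent.H39.TZ.nf_of_cl h.var hν (by rw [cl_eq h.var hν]; change cR ν (W * F ^ t) ∈ _; rw [hN]; exact hnef))
    h3 h1 h2
  have eN3 : T (W * F ^ t) (W * F ^ t) (W * F ^ t) = T W W W + 3 * t * T F W W := by
    rw [← hT, hN, cube_f s12 s23 hff, ← hT, ← hT, ← hw, ← hf]
  have elN : l (W * F ^ t) = x * L D + L a + t * l F := by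
    rw [← hL, hN, hwa, map_add, map_add, map_smul, map_smul, smul_eq_mul, smul_eq_mul, hf, hL]
  unfold chi at h4
  rw [eN3, elN] at h4
  refine le_trans ?_ h4
  have g1 : x * (-|L D|) ≤ x * L D := mul_le_mul_of_nonneg_left (neg_abs_le _) hx0.le
  have g2 : B₄ ≤ B₄ * x := by nlinarith
  have g3 : |c| ≤ |c| * x := by nlinarith [abs_nonneg c]
  have g4 : |C₀| ≤ |C₀| * x := by nlinarith [abs_nonneg C₀]
  have g5 := neg_abs_le c
  have g6 := le_abs_self C₀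
  have g7 : -B₄ ≤ L a := b4.1
  linarith

end Pool.Agent.H24.KN
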